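import Pool.Agent.TH790.SF.F

set_option autoImplicit false

/-! # Entropy and the gradient of a positive harmonic function -/

namespace Pool.Agent.TH166.QF

open Complex Metric Set Filter Topology MeasureTheory
open Pool.Agent.W677.Mar Pool.Agent.TH790.SF

section

variable {c : ℝ} {Q Q1 Q2 : ℂ → ℂ}

theorem kd_zero (c : ℝ) : KD c (fun _ => 0) (fun _ => 0) (fun _ => 0) :=
  ⟨fun ζ _ => hasDerivAt_const ζ 0, fun ζ _ => hasDerivAt_const ζ 0, continuousOn_const,
    fun _ => rfl, fun _ => rfl⟩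

/-- the mean of `N log N` -/
noncomputable def e0 (Q : ℂ → ℂ) (s : ℝ) : ℝ :=
  ∫ θ in (0 : ℝ)..(2 * Real.pi), (Q (zt s θ)).re * Real.log (Q (zt s θ)).re

noncomputable def e1 (Q Q1 : ℂ → ℂ) (s : ℝ) : ℝ :=
  ∫ θ in (0 : ℝ)..(2 * Real.pi), (Q1 (zt s θ)).re * (Real.log (Q (zt s θ)).re + 1)

/-- the dissipation, continuous on the whole line -/
noncomputable def e2 (Q Q1 : ℂ → ℂ) (s : ℝ) : ℝ :=
  ∫ θ in (0 : ℝ)..(2 * Real.pi), ‖Q1 (zt (min s 0) θ)‖ ^ 2 / (Q (zt (min s 0) θ)).re

variable (hQ : KD c Q Q1 Q2) (hp : ∀ ζ : ℂ, ζ.re < c → 0 < (Q ζ).re)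

include hQ hp

theorem d1 {s : ℝ} (hs : s < c) : HasDerivAt (e0 Q) (e1 Q Q1 s) s := by
  have h := ent1 (kd_zero c) hQ hp hs
  simp only [ff, ff1, zero_re, zero_mul, sub_zero, add_zero] at h
  exact h

theorem d2 {s : ℝ} (hs : s < c) (hs0 : s ≤ 0) : HasDerivAt (e1 Q Q1) (e2 Q Q1 s) s := by
  have h := ent2 (kd_zero c) hQ hp hs
  simp only [ff1, lap, zero_re, zero_im, zero_mul, sub_zero, add_zero, mul_zero] at h
  unfold e2
  rw [min_eq_left hs0]
  exact h

theorem e2_cont (hc : 0 < c) : Continuous (e2 Q Q1) := by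
  have hmap : ∀ q : ℝ × ℝ, (min q.1 0, q.2) ∈ Iio c ×ˢ (univ : Set ℝ) := fun q =>
    ⟨(min_le_right _ _).trans_lt hc, mem_univ _⟩
  have hm : Continuous fun q : ℝ × ℝ => (min q.1 0, q.2) :=
    (continuous_fst.min continuous_const).prodMk continuous_snd
  have h1 := (cont2 (kcK1 hQ)).comp_continuous hm hmap
  have h2 := (cont2 (kcK hQ)).comp_continuous hm hmap
  unfold e2
  refine intervalIntegral.continuous_parametric_intervalIntegral_of_continuous'
    ((h1.norm.pow 2).div (continuous_re.comp h2) fun q => ?_) 0 (2 * Real.pi)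
  exact (hp _ (by rw [zt_re]; exact (hmap q).1)).ne'

theorem e2_nonneg (hc : 0 < c) (s : ℝ) : 0 ≤ e2 Q Q1 s := by
  unfold e2
  apply intervalIntegral.integral_nonneg tp_pos.le
  intro θ _
  have : 0 < (Q (zt (min s 0) θ)).re :=
    hp _ (by rw [zt_re]; exact (min_le_right _ _).trans_lt hc)
  positivity

/-- the one-dimensional argument -/
theorem one_dim (hc : 0 < c) {T : ℝ} (h0 : Tendsto (e0 Q) atBot (𝓝 T))
    (h1 : Tendsto (e1 Q Q1) atBot (𝓝 0)) {a : ℝ} (ha : a ≤ 0) :
    ∫ s in a..0, (-s) * e2 Q Q1 s ≤ e0 Q 0 - T := by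
  have hcont : Continuous fun s => (-s) * e2 Q Q1 s := continuous_neg.mul (e2_cont hQ hp hc)
  have hm1 : MonotoneOn (e1 Q Q1) (Iic 0) := by
    apply monotoneOn_of_deriv_nonneg (convex_Iic 0)
    · intro s hs
      exact (d2 hQ hp ((mem_Iic.1 hs).trans_lt hc) hs).continuousAt.continuousWithinAt
    · intro s hs
      rw [interior_Iic] at hs
      exact (d2 hQ hp (hs.trans hc) (le_of_lt hs)).differentiableAt.differentiableWithinAt
    · intro s hs
      rw [interior_Iic] at hs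
      rw [(d2 hQ hp (hs.trans hc) (le_of_lt hs)).deriv]
      exact e2_nonneg hQ hp hc s
  have p1 : ∀ s : ℝ, s ≤ 0 → 0 ≤ e1 Q Q1 s := by
    intro s hs
    refine le_of_tendsto h1 ?_
    filter_upwards [eventually_le_atBot s] with b hb
    exact hm1 (hb.trans hs) hs hb
  have hm0 : MonotoneOn (e0 Q) (Iic 0) := by
    apply monotoneOn_of_deriv_nonneg (convex_Iic 0)
    · intro s hs
      exact (d1 hQ hp ((mem_Iic.1 hs).trans_lt hc)).continuousAt.continuousWithinAt
    · intro s hs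
      rw [interior_Iic] at hs
      exact (d1 hQ hp (hs.trans hc)).differentiableAt.differentiableWithinAt
    · intro s hs
      rw [interior_Iic] at hs
      rw [(d1 hQ hp (hs.trans hc)).deriv]
      exact p1 s (le_of_lt hs)
  have p0 : T ≤ e0 Q a := by
    refine le_of_tendsto h0 ?_
    filter_upwards [eventually_le_atBot a] with b hb
    exact hm0 (hb.trans ha) ha hb
  set Φ : ℝ → ℝ := fun s => e0 Q s - s * e1 Q Q1 s - ∫ σ in a..s, (-σ) * e2 Q Q1 σ with hΦ
  have hd : ∀ s ∈ Icc a 0, HasDerivAt Φ (e1 Q Q1 s - (1 * e1 Q Q1 s + s * e2 Q Q1 s) -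
      (-s) * e2 Q Q1 s) s := by
    intro s hs
    have hsc : s < c := hs.2.trans_lt hc
    exact ((d1 hQ hp hsc).sub ((hasDerivAt_id s).mul (d2 hQ hp hsc hs.2))).sub
      (intervalIntegral.integral_hasDerivAt_right (hcont.intervalIntegrable _ _)
        (hcont.stronglyMeasurableAtFilter _ _) hcont.continuousAt)
  have hm : MonotoneOn Φ (Icc a 0) := by
    apply monotoneOn_of_deriv_nonneg (convex_Icc a 0)
    · intro s hs
      exact (hd s hs).continuousAt.continuousWithinAt
    · intro s hs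
      exact (hd s (interior_subset hs)).differentiableAt.differentiableWithinAt
    · intro s hs
      rw [(hd s (interior_subset hs)).deriv]
      linarith
  have h2 := hm (left_mem_Icc.2 ha) (right_mem_Icc.2 ha) ha
  simp only [hΦ, intervalIntegral.integral_same, zero_mul, sub_zero] at h2
  have h3 := mul_nonneg (neg_nonneg.2 ha) (p1 a ha)
  linarith

end

end Pool.Agent.TH166.QF
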