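import Pool.Agent.TH166.QF.QF1
import Pool.Agent.W677.MarP

set_option autoImplicit false

/-! # The weighted gradient bound for a polynomial with positive real part -/

namespace Pool.Agent.TH166.QF

open Complex Metric Set Filter Topology MeasureTheory
open Pool.Agent.W677.Mar Pool.Agent.TH790.SF

theorem lim0 {G : ℂ → ℝ} (hG : ContinuousOn G (closedBall (0 : ℂ) 1)) :
    Tendsto (fun s : ℝ => ∫ θ in (0 : ℝ)..(2 * Real.pi), G (pt (Real.exp s) θ)) atBot
      (𝓝 (2 * Real.pi * G 0)) := by
  have hm : ∀ q : ℝ × ℝ, pt (min |q.1| 1) q.2 ∈ closedBall (0 : ℂ) 1 := fun q => by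
    rw [mem_closedBall_zero_iff, norm_pt _ _ (le_min (abs_nonneg _) zero_le_one)]
    exact min_le_right _ _
  have hc0 : Continuous fun q : ℝ × ℝ => pt (min |q.1| 1) q.2 := by
    unfold pt circleMap
    fun_prop
  have hc1 : Continuous fun q : ℝ × ℝ => G (pt (min |q.1| 1) q.2) := hG.comp_continuous hc0 hm
  have hc2 : Continuous fun u : ℝ => ∫ θ in (0 : ℝ)..(2 * Real.pi), G (pt (min |u| 1) θ) :=
    intervalIntegral.continuous_parametric_intervalIntegral_of_continuous' hc1 0 (2 * Real.pi)
  have h1 := (hc2.tendsto 0).comp Real.tendsto_exp_atBot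
  have e : (∫ θ in (0 : ℝ)..(2 * Real.pi), G (pt (min |(0 : ℝ)| 1) θ)) = 2 * Real.pi * G 0 := by
    have : ∀ θ : ℝ, pt (min |(0 : ℝ)| 1) θ = 0 := fun θ => by
      simp [pt, circleMap]
    simp only [this]
    rw [intervalIntegral.integral_const, sub_zero, smul_eq_mul]
  simp only [e] at h1
  refine h1.congr' ?_
  filter_upwards [eventually_le_atBot (0 : ℝ)] with s hs
  have h2 : Real.exp s ≤ 1 := Real.exp_le_one_iff.2 hs
  simp only [Function.comp_apply]
  rw [abs_of_pos (Real.exp_pos s), min_eq_left h2]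

section

variable {P : ℂ → ℂ}

/-- `|z P'|` integrated over the circle -/
noncomputable def gI (P : ℂ → ℂ) (u : ℝ) : ℝ :=
  u * ∫ θ in (0 : ℝ)..(2 * Real.pi), ‖deriv P (pt u θ)‖

theorem gI_cont (hP : Differentiable ℂ P) : Continuous (gI P) := by
  unfold gI
  apply continuous_id.mul
  have h1 : Continuous fun q : ℝ × ℝ => ‖deriv P (pt q.1 q.2)‖ := by
    apply Continuous.norm
    apply (hP.contDiff (n := 1)).continuous_deriv_one.comp
    unfold pt circleMap
    fun_prop
  exact intervalIntegral.continuous_parametric_intervalIntegral_of_continuous' h1 0 (2 * Real.pi)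

theorem amgm {q N σ κ : ℝ} (hN : 0 < N) (hσ : σ < 0) (hκ : 0 < κ) :
    Real.exp σ * q ≤ κ / 2 * ((-σ) * (q ^ 2 / N)) +
      1 / (2 * κ) * (2 * Real.exp σ ^ 2 / (1 - Real.exp σ ^ 2)) * N := by
  have h0 := Real.exp_pos σ
  have hx : Real.exp σ ^ 2 < 1 := by
    have : Real.exp σ < 1 := Real.exp_lt_one_iff.2 hσ
    nlinarith
  have h1 : 1 - Real.exp σ ^ 2 ≤ 2 * (-σ) := by
    have := Real.add_one_le_exp (2 * σ)
    have e : Real.exp σ ^ 2 = Real.exp (2 * σ) := by
      rw [← Real.exp_nat_mul]; norm_num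
    rw [e]
    linarith
  have hs : 0 < -σ := by linarith
  have h2 : 1 / (-σ) ≤ 2 / (1 - Real.exp σ ^ 2) := by
    rw [div_le_div_iff₀ hs (by linarith)]
    linarith
  have h3 : Real.exp σ * q ≤ κ / 2 * ((-σ) * (q ^ 2 / N)) +
      1 / (2 * κ) * (Real.exp σ ^ 2 * (1 / (-σ))) * N := by
    have h4 : 0 ≤ (κ * (-σ) * q - Real.exp σ * N) ^ 2 / (2 * κ * (-σ) * N) := by positivity
    have h5 : (κ * (-σ) * q - Real.exp σ * N) ^ 2 / (2 * κ * (-σ) * N) =
        κ / 2 * ((-σ) * (q ^ 2 / N)) + 1 / (2 * κ) * (Real.exp σ ^ 2 * (1 / (-σ))) * N -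
          Real.exp σ * q := by
      have : σ ≠ 0 := hσ.ne
      field_simp
      ring
    rw [h5] at h4
    linarith
  have h6 : 1 / (2 * κ) * (Real.exp σ ^ 2 * (1 / (-σ))) * N ≤
      1 / (2 * κ) * (2 * Real.exp σ ^ 2 / (1 - Real.exp σ ^ 2)) * N := by
    apply mul_le_mul_of_nonneg_right _ hN.le
    apply mul_le_mul_of_nonneg_left _ (by positivity)
    have := mul_le_mul_of_nonneg_left h2 (sq_nonneg (Real.exp σ))
    refine this.trans (le_of_eq ?_)
    ring
  linarith

/-- **the weighted gradient bound** -/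
theorem grad_bound (hP : Differentiable ℂ P) {c0 : ℝ} (hc0 : 0 < c0)
    (hc : ∀ φ : ℝ, c0 ≤ (P (pt 1 φ)).re) {r κ : ℝ} (hr0 : 0 < r) (hr1 : r < 1) (hκ : 0 < κ) :
    ∫ u in (0 : ℝ)..r, gI P u ≤
      κ / 2 * ((∫ θ in (0 : ℝ)..(2 * Real.pi), (P (pt 1 θ)).re * Real.log (P (pt 1 θ)).re) -
        2 * Real.pi * ((P 0).re * Real.log (P 0).re)) +
      Real.pi * (P 0).re / κ * lam (r ^ 2) := by
  have hpi := Real.pi_pos
  obtain ⟨R₂, hR₂, hpos⟩ := pos_ball hP hc0 hc
  have hR₂0 : 0 < R₂ := by linarith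
  have hlogR : 0 < Real.log R₂ := Real.log_pos hR₂
  have hQ := kd_of hR₂0 (hP.differentiableOn (s := ball 0 R₂))
  set Q : ℂ → ℂ := fun ζ => P (Complex.exp ζ) with hQd
  set Q1 : ℂ → ℂ := fun ζ => Complex.exp ζ * deriv P (Complex.exp ζ) with hQ1d
  have hp : ∀ ζ : ℂ, ζ.re < Real.log R₂ → 0 < (Q ζ).re := by
    intro ζ hζ
    apply hpos
    rw [mem_ball_zero_iff, Complex.norm_exp, ← Real.exp_log hR₂0]
    exact Real.exp_lt_exp.2 hζ
  have hlow : ∀ w ∈ closedBall (0 : ℂ) 1, c0 ≤ (P w).re := re_lower hP hc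
  have hcP : Continuous P := hP.continuous
  have hcP' : Continuous (deriv P) := (hP.contDiff (n := 1)).continuous_deriv_one
  have hQe : ∀ s θ : ℝ, Q (zt s θ) = P (pt (Real.exp s) θ) := fun s θ => by
    simp only [hQd, exp_zt]
  have hQ1e : ∀ s θ : ℝ, Q1 (zt s θ) = pt (Real.exp s) θ * deriv P (pt (Real.exp s) θ) :=
    fun s θ => by simp only [hQ1d, exp_zt]
  have hlogc : ContinuousOn (fun w => Real.log (P w).re) (closedBall (0 : ℂ) 1) :=
    (continuous_re.comp hcP).continuousOn.log fun w hw => (hc0.trans_le (hlow w hw)).ne'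
  have hl0 : Tendsto (e0 Q) atBot (𝓝 (2 * Real.pi * ((P 0).re * Real.log (P 0).re))) := by
    have := lim0 (G := fun w => (P w).re * Real.log (P w).re)
      ((continuous_re.comp hcP).continuousOn.mul hlogc)
    unfold e0
    simp only [hQe]
    exact this
  have hl1 : Tendsto (e1 Q Q1) atBot (𝓝 0) := by
    have := lim0 (G := fun w => (w * deriv P w).re * (Real.log (P w).re + 1))
      (((continuous_re.comp (continuous_id.mul hcP')).continuousOn).mul
        (hlogc.add continuousOn_const))
    unfold e1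
    simp only [hQe, hQ1e]
    simpa using this
  have hent : ∀ a : ℝ, a ≤ 0 → ∫ s in a..0, (-s) * e2 Q Q1 s ≤
      e0 Q 0 - 2 * Real.pi * ((P 0).re * Real.log (P 0).re) := fun a ha =>
    one_dim hQ hp hlogR hl0 hl1 ha
  have he00 : e0 Q 0 = ∫ θ in (0 : ℝ)..(2 * Real.pi), (P (pt 1 θ)).re * Real.log (P (pt 1 θ)).re := by
    unfold e0
    simp only [hQe, Real.exp_zero]
  rw [← he00]
  -- the mean of `N` on a circle
  have hmean : ∀ u : ℝ, ∫ φ in (0 : ℝ)..(2 * Real.pi), (P (pt u φ)).re = 2 * Real.pi * (P 0).re := by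
    intro u
    have h1 := mean_re (P := fun w => P (u * w)) (hP.comp (differentiable_id.const_mul (u : ℂ)))
    simp only [mul_zero] at h1
    rw [← h1]
    refine intervalIntegral.integral_congr fun φ _ => ?_
    rw [← pt_eq]
  set ℓ : ℝ := Real.log r with hℓ
  have hℓ0 : ℓ < 0 := Real.log_neg hr0 hr1
  have hexpℓ : Real.exp ℓ = r := Real.exp_log hr0
  -- pointwise in `s`
  have hpt : ∀ s : ℝ, s < 0 → gI P (Real.exp s) * Real.exp s ≤
      κ / 2 * ((-s) * e2 Q Q1 s) + 1 / (2 * κ) * (2 * Real.exp s ^ 2 / (1 - Real.exp s ^ 2)) *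
        (2 * Real.pi * (P 0).re) := by
    intro s hs
    have hmem : ∀ θ, pt (Real.exp s) θ ∈ closedBall (0 : ℂ) 1 := fun θ => by
      rw [mem_closedBall_zero_iff, norm_pt _ _ (Real.exp_pos s).le]
      exact Real.exp_le_one_iff.2 hs.le
    have hcp : Continuous (pt (Real.exp s)) := continuous_pt _
    have hN : ∀ θ, 0 < (P (pt (Real.exp s) θ)).re := fun θ => hc0.trans_le (hlow _ (hmem θ))
    have hcD : Continuous fun θ => ‖deriv P (pt (Real.exp s) θ)‖ := (hcP'.comp hcp).norm
    have hcN : Continuous fun θ => (P (pt (Real.exp s) θ)).re := continuous_re.comp (hcP.comp hcp)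
    have e1' : gI P (Real.exp s) * Real.exp s = ∫ θ in (0 : ℝ)..(2 * Real.pi),
        Real.exp s * (Real.exp s * ‖deriv P (pt (Real.exp s) θ)‖) := by
      unfold gI
      rw [intervalIntegral.integral_const_mul, intervalIntegral.integral_const_mul]
      ring
    have e2' : e2 Q Q1 s = ∫ θ in (0 : ℝ)..(2 * Real.pi),
        (Real.exp s * ‖deriv P (pt (Real.exp s) θ)‖) ^ 2 / (P (pt (Real.exp s) θ)).re := by
      unfold e2
      rw [min_eq_left hs.le]
      refine intervalIntegral.integral_congr fun θ _ => ?_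
      rw [hQe, hQ1e, norm_mul, norm_pt _ _ (Real.exp_pos s).le]
    have e3' : κ / 2 * ((-s) * e2 Q Q1 s) + 1 / (2 * κ) * (2 * Real.exp s ^ 2 / (1 - Real.exp s ^ 2)) *
        (2 * Real.pi * (P 0).re) = ∫ θ in (0 : ℝ)..(2 * Real.pi),
        (κ / 2 * ((-s) * ((Real.exp s * ‖deriv P (pt (Real.exp s) θ)‖) ^ 2 /
          (P (pt (Real.exp s) θ)).re)) +
        1 / (2 * κ) * (2 * Real.exp s ^ 2 / (1 - Real.exp s ^ 2)) * (P (pt (Real.exp s) θ)).re) := by
      rw [intervalIntegral.integral_add, intervalIntegral.integral_const_mul,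
        intervalIntegral.integral_const_mul, intervalIntegral.integral_const_mul, hmean, ← e2']
      · apply Continuous.intervalIntegrable
        exact continuous_const.mul (continuous_const.mul
          (((continuous_const.mul hcD).pow 2).div hcN fun θ => (hN θ).ne'))
      · exact (continuous_const.mul hcN).intervalIntegrable _ _
    rw [e1', e3']
    apply intervalIntegral.integral_mono_on tp_pos.le
    · exact (continuous_const.mul (continuous_const.mul hcD)).intervalIntegrable _ _
    · apply Continuous.intervalIntegrable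
      exact (continuous_const.mul (continuous_const.mul
          (((continuous_const.mul hcD).pow 2).div hcN fun θ => (hN θ).ne'))).add
            (continuous_const.mul hcN)
    · intro θ _
      exact amgm (hN θ) hs hκ
  have hgc := gI_cont hP
  -- integrate in `s`
  have hint : ∀ a : ℝ, a < ℓ → ∫ u in Real.exp a..r, gI P u ≤
      κ / 2 * (e0 Q 0 - 2 * Real.pi * ((P 0).re * Real.log (P 0).re)) +
      Real.pi * (P 0).re / κ * lam (r ^ 2) := by
    intro a ha
    have hM0 : 0 < (P 0).re := hc0.trans_le (hlow 0 (by simp))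
    have h1 : ∫ u in Real.exp a..r, gI P u = ∫ s in a..ℓ, gI P (Real.exp s) * Real.exp s := by
      have := intervalIntegral.integral_comp_mul_deriv (a := a) (b := ℓ) (f := Real.exp)
        (f' := Real.exp) (g := gI P) (fun x _ => Real.hasDerivAt_exp x)
        Real.continuous_exp.continuousOn hgc
      rw [hexpℓ] at this
      exact this.symm
    have hcE : Continuous fun s => (-s) * e2 Q Q1 s := continuous_neg.mul (e2_cont hQ hp hlogR)
    have hcW : ContinuousOn (fun s : ℝ => 2 * Real.exp s ^ 2 / (1 - Real.exp s ^ 2)) (uIcc a ℓ) := by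
      intro s hs
      rw [uIcc_of_le ha.le] at hs
      exact (xx_d (hs.2.trans_lt hℓ0)).continuousAt.continuousWithinAt
    rw [h1]
    have h2 : ∫ s in a..ℓ, gI P (Real.exp s) * Real.exp s ≤ ∫ s in a..ℓ,
        (κ / 2 * ((-s) * e2 Q Q1 s) + 1 / (2 * κ) * (2 * Real.exp s ^ 2 / (1 - Real.exp s ^ 2)) *
        (2 * Real.pi * (P 0).re)) := by
      apply intervalIntegral.integral_mono_on ha.le
      · exact ((hgc.comp Real.continuous_exp).mul Real.continuous_exp).intervalIntegrable _ _
      · apply ContinuousOn.intervalIntegrable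
        exact (continuous_const.mul hcE).continuousOn.add
          ((continuousOn_const.mul hcW).mul continuousOn_const)
      · intro s hs
        exact hpt s (hs.2.trans_lt hℓ0)
    refine h2.trans ?_
    rw [intervalIntegral.integral_add, intervalIntegral.integral_const_mul,
      intervalIntegral.integral_mul_const, intervalIntegral.integral_const_mul]
    · have h3 : ∫ s in a..ℓ, 2 * Real.exp s ^ 2 / (1 - Real.exp s ^ 2) ≤ lam (r ^ 2) := by
        rw [intervalIntegral.integral_eq_sub_of_hasDerivAt (f := fun s => lam (Real.exp s ^ 2))]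
        · rw [hexpℓ]
          have : 0 ≤ lam (Real.exp a ^ 2) := by
            apply lam_nonneg (sq_nonneg _)
            have : Real.exp a < 1 := Real.exp_lt_one_iff.2 (ha.trans hℓ0)
            have := Real.exp_pos a
            nlinarith
          linarith
        · intro s hs
          rw [uIcc_of_le ha.le] at hs
          exact lam_exp_d (hs.2.trans_lt hℓ0)
        · exact hcW.intervalIntegrable
      have h4 : ∫ s in a..ℓ, (-s) * e2 Q Q1 s ≤
          e0 Q 0 - 2 * Real.pi * ((P 0).re * Real.log (P 0).re) := by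
        refine le_trans ?_ (hent a (ha.trans hℓ0).le)
        rw [← intervalIntegral.integral_add_adjacent_intervals (a := a) (b := ℓ) (c := 0)
          (hcE.intervalIntegrable _ _) (hcE.intervalIntegrable _ _)]
        have : 0 ≤ ∫ s in ℓ..0, (-s) * e2 Q Q1 s := by
          apply intervalIntegral.integral_nonneg hℓ0.le
          intro s hs
          exact mul_nonneg (by linarith [hs.2]) (e2_nonneg hQ hp hlogR s)
        linarith
      have h5 : κ / 2 * ∫ s in a..ℓ, (-s) * e2 Q Q1 s ≤
          κ / 2 * (e0 Q 0 - 2 * Real.pi * ((P 0).re * Real.log (P 0).re)) :=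
        mul_le_mul_of_nonneg_left h4 (by positivity)
      have h6 : 1 / (2 * κ) * (∫ s in a..ℓ, 2 * Real.exp s ^ 2 / (1 - Real.exp s ^ 2)) *
          (2 * Real.pi * (P 0).re) ≤ Real.pi * (P 0).re / κ * lam (r ^ 2) := by
        have h7 : 0 ≤ Real.pi * (P 0).re / κ := by positivity
        calc _ = Real.pi * (P 0).re / κ *
              (∫ s in a..ℓ, 2 * Real.exp s ^ 2 / (1 - Real.exp s ^ 2)) := by
              field_simp
          _ ≤ _ := mul_le_mul_of_nonneg_left h3 h7
      linarith
    · exact (continuous_const.mul hcE).intervalIntegrable _ _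
    · apply ContinuousOn.intervalIntegrable
      exact (continuousOn_const.mul hcW).mul continuousOn_const
  -- let `a → -∞`
  have hlim : Tendsto (fun a : ℝ => ∫ u in Real.exp a..r, gI P u) atBot
      (𝓝 (∫ u in (0 : ℝ)..r, gI P u)) := by
    have h1 : Continuous fun x : ℝ => ∫ u in x..r, gI P u := by
      have h2 : (fun x : ℝ => ∫ u in x..r, gI P u) = fun x => -∫ u in r..x, gI P u := by
        funext x
        rw [intervalIntegral.integral_symm]
      rw [h2]
      exact (intervalIntegral.continuous_primitive (fun a b => hgc.intervalIntegrable a b) r).neg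
    exact (h1.tendsto 0).comp Real.tendsto_exp_atBot
  refine le_of_tendsto hlim ?_
  filter_upwards [eventually_lt_atBot ℓ] with a ha using hint a ha

end

end Pool.Agent.TH166.QF
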