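import Pool.Agent.TH166.QF.QF2

set_option autoImplicit false

/-! # The pairing of a positive harmonic function with the kernel of the Beurling transform -/

namespace Pool.Agent.TH166.QF

open Complex Metric Set Filter Topology MeasureTheory
open Pool.Agent.W677.Mar Pool.Agent.TH790.SF

section

variable {P : ℂ → ℂ}

theorem pt_ne {r : ℝ} (hr : 0 < r) (θ : ℝ) : pt r θ ≠ 0 := by
  have := norm_pt r θ hr.le
  intro h
  rw [h, norm_zero] at this
  linarith

theorem mean_hol {g : ℂ → ℂ} {R : ℝ} (hR : 1 < R) (hg : DifferentiableOn ℂ g (ball 0 R)) :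
    ∫ θ in (0 : ℝ)..(2 * Real.pi), g (pt 1 θ) = 2 * Real.pi * g 0 := by
  have hpi := Real.pi_pos
  have hD : DiffContOnCl ℂ g (ball 0 |1|) := by
    apply DifferentiableOn.diffContOnCl
    apply hg.mono
    rw [abs_one, closure_ball (0 : ℂ) one_ne_zero]
    exact closedBall_subset_ball hR
  have h1 := hD.circleAverage
  unfold Real.circleAverage at h1
  rw [← h1, Complex.real_smul]
  have : (2 * (Real.pi : ℂ)) ≠ 0 := by
    have : (Real.pi : ℂ) ≠ 0 := by exact_mod_cast hpi.ne'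
    simp [this]
  push_cast
  rw [← mul_assoc, mul_inv_cancel₀ this, one_mul]
  rfl

/-- `∫ P(u) w̄ / (1 - w̄ ζ̄)² = 2 π r P'(r ζ̄)`, with `w̄ = r / u` -/
theorem cauchy2 (hP : Differentiable ℂ P) {r : ℝ} (hr0 : 0 < r) {η : ℂ} (hη : ‖η‖ < 1) :
    ∫ θ in (0 : ℝ)..(2 * Real.pi), P (pt 1 θ) * ((r : ℂ) * pt 1 θ / (pt 1 θ - η) ^ 2) =
      2 * Real.pi * r * deriv P η := by
  have hpi := Real.pi_pos
  have h1 := Complex.two_pi_I_inv_smul_circleIntegral_sub_sq_inv_smul_of_differentiable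
    (U := univ) isOpen_univ (c := 0) (w₀ := η) (R := 1) (f := P) (subset_univ _)
    hP.differentiableOn (by rwa [mem_ball_zero_iff])
  have hne : (2 * Real.pi * I : ℂ) ≠ 0 := by
    have : (Real.pi : ℂ) ≠ 0 := by exact_mod_cast hpi.ne'
    simp [this]
  have h2 : ∮ z in C(0, 1), ((z - η) ^ 2)⁻¹ • P z = (2 * Real.pi * I) * deriv P η := by
    rw [← h1, smul_eq_mul, mul_inv_cancel_left₀ hne]
  have h3 : ∮ z in C(0, 1), ((z - η) ^ 2)⁻¹ • P z =
      (I / r) * ∫ θ in (0 : ℝ)..(2 * Real.pi), P (pt 1 θ) * ((r : ℂ) * pt 1 θ / (pt 1 θ - η) ^ 2) := by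
    rw [circleIntegral, ← intervalIntegral.integral_const_mul]
    refine intervalIntegral.integral_congr fun θ _ => ?_
    have hr : (r : ℂ) ≠ 0 := by exact_mod_cast hr0.ne'
    simp only [deriv_circleMap, smul_eq_mul, pt]
    rw [div_eq_mul_inv (_ * _) ((_ - _) ^ 2)]
    field_simp
  rw [h3] at h2
  have hr : (r : ℂ) ≠ 0 := by exact_mod_cast hr0.ne'
  have h4 : (I / r) ≠ 0 := div_ne_zero I_ne_zero hr
  apply mul_left_cancel₀ h4
  rw [h2]
  field_simp

/-- the pairing with the kernel -/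
theorem pairK (hP : Differentiable ℂ P) {r : ℝ} (hr0 : 0 < r) (hr1 : r < 1) {ζ : ℂ} (hζ : ‖ζ‖ < 1) :
    ∫ θ in (0 : ℝ)..(2 * Real.pi), ((P (pt 1 θ)).re : ℂ) * (pt r θ / (1 - pt r θ * ζ) ^ 2) =
      Real.pi * r * (starRingEnd ℂ) (deriv P (r * (starRingEnd ℂ) ζ)) := by
  have hpi := Real.pi_pos
  have hne : ∀ θ : ℝ, 1 - pt r θ * ζ ≠ 0 := by
    intro θ h
    have h1 : pt r θ * ζ = 1 := (sub_eq_zero.1 h).symm
    have h2 : ‖pt r θ * ζ‖ = 1 := by rw [h1, norm_one]
    rw [norm_mul, norm_pt r θ hr0.le] at h2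
    nlinarith [norm_nonneg ζ]
  have hk : Continuous fun θ : ℝ => pt r θ / (1 - pt r θ * ζ) ^ 2 :=
    (continuous_pt r).div ((continuous_const.sub ((continuous_pt r).mul continuous_const)).pow 2)
      fun θ => pow_ne_zero 2 (hne θ)
  have hc1 : Continuous fun θ : ℝ => P (pt 1 θ) := hP.continuous.comp (continuous_pt 1)
  have hc2 : Continuous fun θ : ℝ => (starRingEnd ℂ) (P (pt 1 θ)) := continuous_conj.comp hc1
  have hsplit : ∀ θ : ℝ, ((P (pt 1 θ)).re : ℂ) * (pt r θ / (1 - pt r θ * ζ) ^ 2) =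
      (1 / 2 : ℂ) * (P (pt 1 θ) * (pt r θ / (1 - pt r θ * ζ) ^ 2)) +
      (1 / 2 : ℂ) * ((starRingEnd ℂ) (P (pt 1 θ)) * (pt r θ / (1 - pt r θ * ζ) ^ 2)) := by
    intro θ
    rw [Complex.re_eq_add_conj]
    ring
  have hA : ∫ θ in (0 : ℝ)..(2 * Real.pi), P (pt 1 θ) * (pt r θ / (1 - pt r θ * ζ) ^ 2) = 0 := by
    have h1 : 1 < 1 / r := by rw [lt_div_iff₀ hr0]; linarith
    have h2 := mean_hol (g := fun u => P u * ((r * u) / (1 - (r * u) * ζ) ^ 2)) h1 (by
      apply DifferentiableOn.mul hP.differentiableOn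
      apply DifferentiableOn.div
      · exact (differentiable_id.const_mul (r : ℂ)).differentiableOn
      · exact (((differentiable_const 1).sub
          ((differentiable_id.const_mul (r : ℂ)).mul_const ζ)).pow 2).differentiableOn
      · intro u hu
        apply pow_ne_zero
        intro h
        have h1 : (r * u) * ζ = 1 := (sub_eq_zero.1 h).symm
        have h2 : ‖(r * u) * ζ‖ = 1 := by rw [h1, norm_one]
        rw [mem_ball_zero_iff, lt_div_iff₀ hr0] at hu
        rw [norm_mul, norm_mul, Complex.norm_real, Real.norm_of_nonneg hr0.le] at h2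
        nlinarith [norm_nonneg ζ, norm_nonneg u, mul_nonneg hr0.le (norm_nonneg u)])
    simp only [mul_zero, zero_div] at h2
    rw [← h2]
    refine intervalIntegral.integral_congr fun θ _ => ?_
    simp only [← pt_eq]
  have hB : ∫ θ in (0 : ℝ)..(2 * Real.pi), (starRingEnd ℂ) (P (pt 1 θ)) *
      (pt r θ / (1 - pt r θ * ζ) ^ 2) =
      (starRingEnd ℂ) (2 * Real.pi * r * deriv P (r * (starRingEnd ℂ) ζ)) := by
    have hη : ‖(r : ℂ) * (starRingEnd ℂ) ζ‖ < 1 := by
      rw [norm_mul, Complex.norm_real, Real.norm_of_nonneg hr0.le, RCLike.norm_conj]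
      nlinarith [norm_nonneg ζ]
    rw [← cauchy2 hP hr0 hη]
    have h5 : (starRingEnd ℂ) (∫ θ in (0 : ℝ)..(2 * Real.pi), P (pt 1 θ) *
        ((r : ℂ) * pt 1 θ / (pt 1 θ - r * (starRingEnd ℂ) ζ) ^ 2)) =
        ∫ θ in (0 : ℝ)..(2 * Real.pi), (starRingEnd ℂ) (P (pt 1 θ) *
        ((r : ℂ) * pt 1 θ / (pt 1 θ - r * (starRingEnd ℂ) ζ) ^ 2)) := by
      rw [intervalIntegral.integral_of_le tp_pos.le, intervalIntegral.integral_of_le tp_pos.le]
      exact (integral_conj (f := fun θ => P (pt 1 θ) *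
        ((r : ℂ) * pt 1 θ / (pt 1 θ - r * (starRingEnd ℂ) ζ) ^ 2))).symm
    rw [h5]
    refine intervalIntegral.integral_congr fun θ _ => ?_
    have hu0 := pt_ne one_pos θ
    have hcu : (starRingEnd ℂ) (pt 1 θ) = (pt 1 θ)⁻¹ := by
      rw [Complex.inv_def, Complex.normSq_eq_norm_sq, norm_pt 1 θ zero_le_one]
      simp
    simp only [map_mul, map_div₀, map_pow, map_sub, Complex.conj_conj, Complex.conj_ofReal, hcu]
    congr 1
    have h6 : pt r θ = r * pt 1 θ := pt_eq r θ
    have h7 := hne θ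
    rw [h6] at h7 ⊢
    have h8 : (pt 1 θ)⁻¹ - r * ζ ≠ 0 := by
      intro h
      apply h7
      have : (pt 1 θ)⁻¹ = r * ζ := sub_eq_zero.1 h
      have h9 : 1 = pt 1 θ * (r * ζ) := by rw [← this, mul_inv_cancel₀ hu0]
      linear_combination h9
    have h10 : 1 - r * pt 1 θ * ζ = pt 1 θ * ((pt 1 θ)⁻¹ - r * ζ) := by
      rw [mul_sub, mul_inv_cancel₀ hu0]; ring
    rw [h10]
    field_simp
  simp only [hsplit]
  rw [intervalIntegral.integral_add, intervalIntegral.integral_const_mul,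
    intervalIntegral.integral_const_mul, hA, hB]
  · simp only [map_mul, Complex.conj_ofReal, map_ofNat]
    ring
  · exact (continuous_const.mul (hc1.mul hk)).intervalIntegrable _ _
  · exact (continuous_const.mul (hc2.mul hk)).intervalIntegrable _ _

/-- polar coordinates -/
theorem polarP (hP : Differentiable ℂ P) {r : ℝ} (hr0 : 0 < r) :
    ∫ ζ in ball (0 : ℂ) 1, ‖deriv P (r * (starRingEnd ℂ) ζ)‖ =
      1 / r ^ 2 * ∫ u in (0 : ℝ)..r, gI P u := by
  have hpi := Real.pi_pos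
  have hcP' : Continuous (deriv P) := (hP.contDiff (n := 1)).continuous_deriv_one
  have hg : ∀ s θ : ℝ, (r : ℂ) * (starRingEnd ℂ) (pt s θ) = pt (r * s) (-θ) := by
    intro s θ
    simp only [pt, circleMap, zero_add, map_mul, Complex.conj_ofReal, ← Complex.exp_conj,
      Complex.conj_I]
    push_cast
    ring_nf
  have h0 : ∫ ζ in ball (0 : ℂ) 1, ‖deriv P (r * (starRingEnd ℂ) ζ)‖ =
      ∫ ζ : ℂ, (ball (0 : ℂ) 1).indicator (fun ζ => ‖deriv P (r * (starRingEnd ℂ) ζ)‖) ζ :=
    (integral_indicator measurableSet_ball).symm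
  rw [h0, ← Complex.integral_comp_polarCoord_symm]
  have hsymm : ∀ p : ℝ × ℝ, Complex.polarCoord.symm p = pt p.1 p.2 := by
    intro p
    rw [Complex.polarCoord_symm_apply]
    simp only [pt, circleMap, zero_add]
    rw [Complex.exp_mul_I]
    push_cast
    rfl
  have h1 : ∫ p in polarCoord.target, p.1 • (ball (0 : ℂ) 1).indicator
      (fun ζ => ‖deriv P (r * (starRingEnd ℂ) ζ)‖) (Complex.polarCoord.symm p) =
      ∫ p in Ioo (0 : ℝ) 1 ×ˢ Ioo (-Real.pi) Real.pi, p.1 * ‖deriv P (pt (r * p.1) (-p.2))‖ := by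
    have hsub : Ioo (0 : ℝ) 1 ×ˢ Ioo (-Real.pi) Real.pi ⊆ polarCoord.target := by
      rw [polarCoord_target]
      exact prod_mono (fun x hx => hx.1) subset_rfl
    rw [← integral_indicator (polarCoord.open_target.measurableSet),
      ← integral_indicator (measurableSet_Ioo.prod measurableSet_Ioo)]
    congr 1
    funext p
    by_cases hp : p ∈ Ioo (0 : ℝ) 1 ×ˢ Ioo (-Real.pi) Real.pi
    · rw [indicator_of_mem hp, indicator_of_mem (hsub hp), hsymm]
      have : pt p.1 p.2 ∈ ball (0 : ℂ) 1 := by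
        rw [mem_ball_zero_iff, norm_pt _ _ hp.1.1.le]
        exact hp.1.2
      rw [indicator_of_mem this, hg, smul_eq_mul]
    · rw [indicator_of_notMem hp]
      by_cases hp2 : p ∈ polarCoord.target
      · rw [indicator_of_mem hp2, hsymm]
        have : pt p.1 p.2 ∉ ball (0 : ℂ) 1 := by
          rw [polarCoord_target] at hp2
          intro h
          rw [mem_ball_zero_iff, norm_pt _ _ (le_of_lt hp2.1)] at h
          exact hp ⟨⟨hp2.1, h⟩, hp2.2⟩
        rw [indicator_of_notMem this, smul_zero]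
      · rw [indicator_of_notMem hp2]
  rw [h1]
  have hcont : Continuous fun p : ℝ × ℝ => p.1 * ‖deriv P (pt (r * p.1) (-p.2))‖ := by
    apply continuous_fst.mul
    apply (hcP'.comp _).norm
    unfold pt circleMap
    fun_prop
  have hint : IntegrableOn (fun p : ℝ × ℝ => p.1 * ‖deriv P (pt (r * p.1) (-p.2))‖)
      (Ioo (0 : ℝ) 1 ×ˢ Ioo (-Real.pi) Real.pi) := by
    apply (hcont.continuousOn.integrableOn_compact (isCompact_Icc.prod isCompact_Icc)
      (K := Icc (0 : ℝ) 1 ×ˢ Icc (-Real.pi) Real.pi)).mono_set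
    exact prod_mono Ioo_subset_Icc_self Ioo_subset_Icc_self
  rw [Measure.volume_eq_prod, setIntegral_prod _ hint]
  have h2 : ∀ s : ℝ, ∫ θ in Ioo (-Real.pi) Real.pi, s * ‖deriv P (pt (r * s) (-θ))‖ =
      1 / r * gI P (r * s) := by
    intro s
    rw [← integral_Ioc_eq_integral_Ioo, ← intervalIntegral.integral_of_le (by linarith)]
    rw [intervalIntegral.integral_comp_neg (fun θ => s * ‖deriv P (pt (r * s) θ)‖), neg_neg]
    have hper : Function.Periodic (fun θ => s * ‖deriv P (pt (r * s) θ)‖) (2 * Real.pi) := fun θ => by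
      simp only [pt_periodic (r * s) θ]
    have h3 := hper.intervalIntegral_add_eq (-Real.pi) 0
    rw [zero_add, show -Real.pi + 2 * Real.pi = Real.pi by ring] at h3
    rw [h3]
    unfold gI
    rw [intervalIntegral.integral_const_mul]
    field_simp
  simp only [h2]
  rw [← integral_Ioc_eq_integral_Ioo, ← intervalIntegral.integral_of_le zero_le_one,
    intervalIntegral.integral_const_mul, intervalIntegral.integral_comp_mul_left _ hr0.ne',
    mul_zero, mul_one, smul_eq_mul]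
  field_simp

end

end Pool.Agent.TH166.QF
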