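import Pool.Agent.TH166.QF.QF3

set_option autoImplicit false

/-! # The Beurling transform against a positive density -/

namespace Pool.Agent.TH166.QF

open Complex Metric Set Filter Topology MeasureTheory
open Pool.Agent.W677.Mar Pool.Agent.TH790.SF

/-- the Beurling transform of a function on the unit disc -/
noncomputable def BT (μ : ℂ → ℂ) (z : ℂ) : ℂ :=
  -(1 / Real.pi) * ∫ ζ in ball (0 : ℂ) 1, μ ζ / (z - ζ) ^ 2

/-- the variant which is paired exactly -/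
noncomputable def BT0 (μ : ℂ → ℂ) (w : ℂ) : ℂ :=
  (1 / Real.pi) * ∫ ζ in ball (0 : ℂ) 1, μ ζ * (starRingEnd ℂ) ζ * (w / (1 - w * ζ) ^ 2)

theorem sing_int : Integrable (fun x : ℂ => (Iio (3 : ℝ)).indicator (fun y => y⁻¹) ‖x‖) ∧
    ∫ x : ℂ, (Iio (3 : ℝ)).indicator (fun y => y⁻¹) ‖x‖ = 6 * Real.pi := by
  have h1 : ∀ y ∈ Ioi (0 : ℝ), y ^ (Module.finrank ℝ ℂ - 1) • (Iio (3 : ℝ)).indicator (fun y => y⁻¹) y =
      (Iio (3 : ℝ)).indicator (fun _ => (1 : ℝ)) y := by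
    intro y hy
    have hy0 : (0 : ℝ) < y := hy
    rw [Complex.finrank_real_complex]
    by_cases h : y ∈ Iio (3 : ℝ)
    · rw [indicator_of_mem h, indicator_of_mem h]
      simp [hy0.ne']
    · rw [indicator_of_notMem h, indicator_of_notMem h, smul_zero]
  have h3 : Ioi (0 : ℝ) ∩ Iio 3 = Ioo 0 3 := by
    ext y
    simp
  constructor
  · rw [integrable_fun_norm_addHaar (μ := volume)]
    rw [integrableOn_congr_fun h1 measurableSet_Ioi]
    rw [IntegrableOn, integrable_indicator_iff measurableSet_Iio, IntegrableOn,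
      Measure.restrict_restrict measurableSet_Iio, inter_comm, h3]
    exact integrable_const _
  · rw [integral_fun_norm_addHaar (μ := volume)]
    rw [setIntegral_congr_fun measurableSet_Ioi h1, integral_indicator measurableSet_Iio,
      Measure.restrict_restrict measurableSet_Iio, inter_comm, h3, Complex.finrank_real_complex]
    simp only [integral_const, smul_eq_mul, mul_one, nsmul_eq_mul]
    rw [Measure.real, Measure.real, Complex.volume_ball]
    simp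
    ring

theorem ball_sing {z : ℂ} (hz : ‖z‖ ≤ 2) :
    IntegrableOn (fun ζ => ‖z - ζ‖⁻¹) (ball (0 : ℂ) 1) ∧
      ∫ ζ in ball (0 : ℂ) 1, ‖z - ζ‖⁻¹ ≤ 6 * Real.pi := by
  obtain ⟨h1, h2⟩ := sing_int
  have h3 : Integrable (fun ζ : ℂ => (Iio (3 : ℝ)).indicator (fun y => y⁻¹) ‖z - ζ‖) :=
    h1.comp_sub_left z
  have h4 : ∀ ζ ∈ ball (0 : ℂ) 1, ‖z - ζ‖⁻¹ = (Iio (3 : ℝ)).indicator (fun y => y⁻¹) ‖z - ζ‖ := by
    intro ζ hζ
    rw [mem_ball_zero_iff] at hζ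
    have : ‖z - ζ‖ < 3 := by
      have := norm_sub_le z ζ
      linarith
    rw [indicator_of_mem (show ‖z - ζ‖ ∈ Iio (3 : ℝ) from this)]
  constructor
  · exact (integrableOn_congr_fun h4 measurableSet_ball).2 h3.integrableOn
  · rw [setIntegral_congr_fun measurableSet_ball h4]
    refine (setIntegral_le_integral h3 ?_).trans ?_
    · refine Eventually.of_forall fun ζ => ?_
      show (0 : ℝ) ≤ (Iio (3 : ℝ)).indicator (fun y => y⁻¹) ‖z - ζ‖
      by_cases h : ‖z - ζ‖ ∈ Iio (3 : ℝ)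
      · rw [indicator_of_mem h]
        positivity
      · rw [indicator_of_notMem h]
    · rw [integral_sub_left_eq_self (fun x : ℂ => (Iio (3 : ℝ)).indicator (fun y => y⁻¹) ‖x‖), h2]

theorem pseudo {w ζ : ℂ} (hw : ‖w‖ ≤ 1) (hζ : ‖ζ‖ ≤ 1) : ‖(starRingEnd ℂ) ζ - w‖ ≤ ‖1 - w * ζ‖ := by
  have h1 : ‖(starRingEnd ℂ) ζ - w‖ ^ 2 ≤ ‖1 - w * ζ‖ ^ 2 := by
    have hw2 : w.re ^ 2 + w.im ^ 2 ≤ 1 := by
      have : ‖w‖ ^ 2 ≤ 1 := by nlinarith [norm_nonneg w]
      rw [← Complex.normSq_eq_norm_sq, Complex.normSq_apply] at this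
      linarith
    have hz2 : ζ.re ^ 2 + ζ.im ^ 2 ≤ 1 := by
      have : ‖ζ‖ ^ 2 ≤ 1 := by nlinarith [norm_nonneg ζ]
      rw [← Complex.normSq_eq_norm_sq, Complex.normSq_apply] at this
      linarith
    rw [← Complex.normSq_eq_norm_sq, ← Complex.normSq_eq_norm_sq, Complex.normSq_apply,
      Complex.normSq_apply]
    simp only [sub_re, sub_im, conj_re, conj_im, one_re, one_im, mul_re, mul_im]
    nlinarith [mul_nonneg (sub_nonneg.2 hw2) (sub_nonneg.2 hz2)]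
  exact le_of_sq_le_sq h1 (norm_nonneg _)

/-- the remainder is bounded -/
theorem rem_bound {μ : ℂ → ℂ} (hμ : Measurable μ) (hμ1 : ∀ ζ, ‖μ ζ‖ ≤ 1) {w : ℂ}
    (hw : 1 / 2 ≤ ‖w‖) (hw1 : ‖w‖ < 1) : ‖BT μ w⁻¹ + BT0 μ w‖ ≤ 6 := by
  have hpi := Real.pi_pos
  have hw0 : w ≠ 0 := by
    intro h
    rw [h, norm_zero] at hw
    norm_num at hw
  have hne : ∀ ζ ∈ ball (0 : ℂ) 1, 1 - w * ζ ≠ 0 := by
    intro ζ hζ h
    rw [mem_ball_zero_iff] at hζ
    have h1 : w * ζ = 1 := (sub_eq_zero.1 h).symm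
    have h2 : ‖w * ζ‖ = 1 := by rw [h1, norm_one]
    rw [norm_mul] at h2
    nlinarith [norm_nonneg ζ]
  have hlow : ∀ ζ ∈ ball (0 : ℂ) 1, 1 - ‖w‖ ≤ ‖1 - w * ζ‖ := by
    intro ζ hζ
    rw [mem_ball_zero_iff] at hζ
    have h1 := norm_sub_norm_le (1 : ℂ) (w * ζ)
    rw [norm_one, norm_mul] at h1
    nlinarith [norm_nonneg ζ, norm_nonneg w]
  have hinv : ∀ ζ ∈ ball (0 : ℂ) 1, w⁻¹ - ζ = (1 - w * ζ) / w := by
    intro ζ _
    field_simp
  have : IsFiniteMeasure (volume.restrict (ball (0 : ℂ) 1)) := ⟨by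
    rw [Measure.restrict_apply_univ]
    exact measure_ball_lt_top⟩
  have i1 : IntegrableOn (fun ζ => μ ζ / (w⁻¹ - ζ) ^ 2) (ball (0 : ℂ) 1) := by
    refine (integrable_const ((1 / (1 - ‖w‖)) ^ 2)).mono' ?_ ?_
    · apply Measurable.aestronglyMeasurable
      fun_prop
    · refine ae_restrict_of_forall_mem measurableSet_ball fun ζ hζ => ?_
      rw [hinv ζ hζ, norm_div, norm_pow, norm_div]
      have h1 := hlow ζ hζ
      have h2 : 0 < 1 - ‖w‖ := by linarith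
      have h3 : (1 - ‖w‖) ≤ ‖1 - w * ζ‖ / ‖w‖ := by
        rw [le_div_iff₀ (by linarith)]
        nlinarith
      calc ‖μ ζ‖ / (‖1 - w * ζ‖ / ‖w‖) ^ 2 ≤ 1 / (1 - ‖w‖) ^ 2 := by
            apply div_le_div₀ zero_le_one (hμ1 ζ) (by positivity)
            exact pow_le_pow_left₀ h2.le h3 2
        _ = _ := by rw [div_pow, one_pow]
  have i2 : IntegrableOn (fun ζ => μ ζ * (starRingEnd ℂ) ζ * (w / (1 - w * ζ) ^ 2))
      (ball (0 : ℂ) 1) := by
    refine (integrable_const ((1 / (1 - ‖w‖)) ^ 2)).mono' ?_ ?_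
    · apply Measurable.aestronglyMeasurable
      have : Measurable fun ζ : ℂ => (starRingEnd ℂ) ζ := continuous_conj.measurable
      fun_prop
    · refine ae_restrict_of_forall_mem measurableSet_ball fun ζ hζ => ?_
      have h1 := hlow ζ hζ
      have h2 : 0 < 1 - ‖w‖ := by linarith
      rw [mem_ball_zero_iff] at hζ
      rw [norm_mul, norm_mul, norm_div, norm_pow, RCLike.norm_conj]
      have h4 : ‖μ ζ‖ * ‖ζ‖ ≤ 1 := by nlinarith [norm_nonneg ζ, norm_nonneg (μ ζ), hμ1 ζ]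
      have h5 : ‖w‖ / ‖1 - w * ζ‖ ^ 2 ≤ 1 / (1 - ‖w‖) ^ 2 := by
        apply div_le_div₀ zero_le_one hw1.le (by positivity)
        exact pow_le_pow_left₀ h2.le h1 2
      calc ‖μ ζ‖ * ‖ζ‖ * (‖w‖ / ‖1 - w * ζ‖ ^ 2) ≤ 1 * (1 / (1 - ‖w‖) ^ 2) :=
            mul_le_mul h4 h5 (by positivity) zero_le_one
        _ = _ := by rw [div_pow, one_pow, one_mul]
  have e : BT μ w⁻¹ + BT0 μ w = (1 / Real.pi) * ∫ ζ in ball (0 : ℂ) 1,
      (μ ζ * (starRingEnd ℂ) ζ * (w / (1 - w * ζ) ^ 2) - μ ζ / (w⁻¹ - ζ) ^ 2) := by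
    rw [integral_sub i2 i1]
    unfold BT BT0
    ring
  obtain ⟨j1, j2⟩ := ball_sing (z := w⁻¹) (by
    rw [norm_inv, inv_le_comm₀ (by linarith) two_pos]
    linarith)
  have h6 : ‖∫ ζ in ball (0 : ℂ) 1,
      (μ ζ * (starRingEnd ℂ) ζ * (w / (1 - w * ζ) ^ 2) - μ ζ / (w⁻¹ - ζ) ^ 2)‖ ≤
      ∫ ζ in ball (0 : ℂ) 1, ‖w⁻¹ - ζ‖⁻¹ := by
    apply norm_integral_le_of_norm_le j1
    refine ae_restrict_of_forall_mem measurableSet_ball fun ζ hζ => ?_
    have h7 := hne ζ hζ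
    have e2 : μ ζ * (starRingEnd ℂ) ζ * (w / (1 - w * ζ) ^ 2) - μ ζ / (w⁻¹ - ζ) ^ 2 =
        μ ζ * (w * ((starRingEnd ℂ) ζ - w) / (1 - w * ζ) ^ 2) := by
      rw [hinv ζ hζ]
      field_simp
    rw [e2, hinv ζ hζ, norm_mul, norm_div, norm_mul, norm_pow, norm_div, inv_div]
    rw [mem_ball_zero_iff] at hζ
    have h8 := pseudo hw1.le hζ.le
    have h9 : 0 < ‖1 - w * ζ‖ := norm_pos_iff.2 h7
    have h10 : ‖w‖ * ‖(starRingEnd ℂ) ζ - w‖ / ‖1 - w * ζ‖ ^ 2 ≤ ‖w‖ / ‖1 - w * ζ‖ := by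
      rw [div_le_div_iff₀ (by positivity) h9]
      have : ‖w‖ * ‖(starRingEnd ℂ) ζ - w‖ ≤ ‖w‖ * ‖1 - w * ζ‖ :=
        mul_le_mul_of_nonneg_left h8 (norm_nonneg w)
      calc ‖w‖ * ‖(starRingEnd ℂ) ζ - w‖ * ‖1 - w * ζ‖ ≤ ‖w‖ * ‖1 - w * ζ‖ * ‖1 - w * ζ‖ :=
            mul_le_mul_of_nonneg_right this h9.le
        _ = _ := by ring
    calc ‖μ ζ‖ * (‖w‖ * ‖(starRingEnd ℂ) ζ - w‖ / ‖1 - w * ζ‖ ^ 2) ≤
          1 * (‖w‖ / ‖1 - w * ζ‖) := mul_le_mul (hμ1 ζ) h10 (by positivity) zero_le_one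
      _ = _ := one_mul _
  rw [e, norm_mul]
  have h11 : ‖(1 / Real.pi : ℂ)‖ = 1 / Real.pi := by
    rw [norm_div, norm_one, Complex.norm_real, Real.norm_of_nonneg hpi.le]
  rw [h11, div_mul_eq_mul_div, one_mul, div_le_iff₀ hpi]
  linarith

section

variable {P : ℂ → ℂ}

/-- the exact pairing -/
theorem pair0 (hP : Differentiable ℂ P) {μ : ℂ → ℂ} (hμ : Measurable μ) (hμ1 : ∀ ζ, ‖μ ζ‖ ≤ 1)
    {r : ℝ} (hr0 : 0 < r) (hr1 : r < 1) :
    ‖∫ θ in (0 : ℝ)..(2 * Real.pi), ((P (pt 1 θ)).re : ℂ) * BT0 μ (pt r θ)‖ ≤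
      1 / r * ∫ u in (0 : ℝ)..r, gI P u := by
  have hpi := Real.pi_pos
  have : IsFiniteMeasure (volume.restrict (ball (0 : ℂ) 1)) := ⟨by
    rw [Measure.restrict_apply_univ]
    exact measure_ball_lt_top⟩
  have hcP' : Continuous (deriv P) := (hP.contDiff (n := 1)).continuous_deriv_one
  obtain ⟨N, hN⟩ := (isCompact_closedBall (0 : ℂ) 1).exists_bound_of_continuousOn
    (f := P) hP.continuous.continuousOn
  have hN0 : 0 ≤ N := (norm_nonneg _).trans (hN 0 (by simp))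
  have hlow : ∀ θ : ℝ, ∀ ζ ∈ ball (0 : ℂ) 1, 1 - r ≤ ‖1 - pt r θ * ζ‖ := by
    intro θ ζ hζ
    rw [mem_ball_zero_iff] at hζ
    have h1 := norm_sub_norm_le (1 : ℂ) (pt r θ * ζ)
    rw [norm_one, norm_mul, norm_pt r θ hr0.le] at h1
    nlinarith [norm_nonneg ζ]
  have hint : Integrable (Function.uncurry fun (θ : ℝ) (ζ : ℂ) => ((P (pt 1 θ)).re : ℂ) *
      (μ ζ * (starRingEnd ℂ) ζ * (pt r θ / (1 - pt r θ * ζ) ^ 2)))
      ((volume.restrict (Ioc 0 (2 * Real.pi))).prod (volume.restrict (ball (0 : ℂ) 1))) := by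
    refine (integrable_const (N * (1 / (1 - r)) ^ 2)).mono' ?_ ?_
    · apply Measurable.aestronglyMeasurable
      have m1 : Measurable fun q : ℝ × ℂ => (starRingEnd ℂ) q.2 :=
        continuous_conj.measurable.comp measurable_snd
      have m2 : Measurable fun q : ℝ × ℂ => pt r q.1 := (continuous_pt r).measurable.comp measurable_fst
      have m3 : Measurable fun q : ℝ × ℂ => ((P (pt 1 q.1)).re : ℂ) := by
        have : Continuous fun θ : ℝ => ((P (pt 1 θ)).re : ℂ) :=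
          Complex.continuous_ofReal.comp (continuous_re.comp (hP.continuous.comp (continuous_pt 1)))
        exact this.measurable.comp measurable_fst
      have m4 : Measurable fun q : ℝ × ℂ => μ q.2 := hμ.comp measurable_snd
      have m5 : Measurable fun q : ℝ × ℂ => (1 - pt r q.1 * q.2) ^ 2 :=
        (measurable_const.sub (m2.mul measurable_snd)).pow_const 2
      exact m3.mul ((m4.mul m1).mul (m2.div m5))
    · rw [Measure.prod_restrict]
      refine ae_restrict_of_forall_mem (measurableSet_Ioc.prod measurableSet_ball) fun q hq => ?_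
      obtain ⟨θ, ζ⟩ := q
      have hζ : ζ ∈ ball (0 : ℂ) 1 := hq.2
      have h1 := hlow θ ζ hζ
      have h2 : 0 < 1 - r := by linarith
      rw [mem_ball_zero_iff] at hζ
      simp only [Function.uncurry_apply_pair]
      rw [norm_mul, norm_mul, norm_mul, norm_div, norm_pow, RCLike.norm_conj, norm_pt r θ hr0.le,
        Complex.norm_real]
      have h3 : ‖(P (pt 1 θ)).re‖ ≤ N := (abs_re_le_norm _).trans (hN _ (by
        rw [mem_closedBall_zero_iff, norm_pt 1 θ zero_le_one]))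
      have h4 : ‖μ ζ‖ * ‖ζ‖ ≤ 1 := by nlinarith [norm_nonneg ζ, norm_nonneg (μ ζ), hμ1 ζ]
      have h5 : r / ‖1 - pt r θ * ζ‖ ^ 2 ≤ 1 / (1 - r) ^ 2 := by
        apply div_le_div₀ zero_le_one hr1.le (by positivity)
        exact pow_le_pow_left₀ h2.le h1 2
      calc ‖(P (pt 1 θ)).re‖ * (‖μ ζ‖ * ‖ζ‖ * (r / ‖1 - pt r θ * ζ‖ ^ 2)) ≤
            N * (1 * (1 / (1 - r) ^ 2)) :=
            mul_le_mul h3 (mul_le_mul h4 h5 (by positivity) zero_le_one) (by positivity) hN0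
        _ = _ := by rw [div_pow, one_pow, one_mul]
  have h1 : ∫ θ in (0 : ℝ)..(2 * Real.pi), ((P (pt 1 θ)).re : ℂ) * BT0 μ (pt r θ) =
      (1 / Real.pi) * ∫ ζ in ball (0 : ℂ) 1, μ ζ * (starRingEnd ℂ) ζ *
        (Real.pi * r * (starRingEnd ℂ) (deriv P (r * (starRingEnd ℂ) ζ))) := by
    have h2 : ∀ θ : ℝ, ((P (pt 1 θ)).re : ℂ) * BT0 μ (pt r θ) = (1 / Real.pi) *
        ∫ ζ in ball (0 : ℂ) 1, ((P (pt 1 θ)).re : ℂ) *
          (μ ζ * (starRingEnd ℂ) ζ * (pt r θ / (1 - pt r θ * ζ) ^ 2)) := by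
      intro θ
      unfold BT0
      rw [integral_const_mul]
      ring
    simp only [h2]
    rw [intervalIntegral.integral_const_mul, intervalIntegral.integral_of_le tp_pos.le,
      integral_integral_swap hint]
    congr 1
    refine setIntegral_congr_fun measurableSet_ball fun ζ hζ => ?_
    rw [mem_ball_zero_iff] at hζ
    rw [← pairK hP hr0 hr1 hζ, ← intervalIntegral.integral_of_le tp_pos.le,
      ← intervalIntegral.integral_const_mul]
    refine intervalIntegral.integral_congr fun θ _ => ?_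
    ring
  have hcD : Continuous fun ζ : ℂ => ‖deriv P (r * (starRingEnd ℂ) ζ)‖ :=
    (hcP'.comp (continuous_const.mul continuous_conj)).norm
  have h3 : ‖∫ ζ in ball (0 : ℂ) 1, μ ζ * (starRingEnd ℂ) ζ *
        (Real.pi * r * (starRingEnd ℂ) (deriv P (r * (starRingEnd ℂ) ζ)))‖ ≤
      ∫ ζ in ball (0 : ℂ) 1, Real.pi * r * ‖deriv P (r * (starRingEnd ℂ) ζ)‖ := by
    apply norm_integral_le_of_norm_le
    · exact ((continuous_const.mul hcD).continuousOn.integrableOn_compact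
        (isCompact_closedBall (0 : ℂ) 1)).mono_set ball_subset_closedBall
    · refine ae_restrict_of_forall_mem measurableSet_ball fun ζ hζ => ?_
      rw [mem_ball_zero_iff] at hζ
      rw [norm_mul, norm_mul, norm_mul, norm_mul, RCLike.norm_conj, RCLike.norm_conj,
        Complex.norm_real, Complex.norm_real, Real.norm_of_nonneg hpi.le,
        Real.norm_of_nonneg hr0.le]
      have h4 : ‖μ ζ‖ * ‖ζ‖ ≤ 1 := by nlinarith [norm_nonneg ζ, norm_nonneg (μ ζ), hμ1 ζ]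
      calc ‖μ ζ‖ * ‖ζ‖ * (Real.pi * r * ‖deriv P (r * (starRingEnd ℂ) ζ)‖) ≤
            1 * (Real.pi * r * ‖deriv P (r * (starRingEnd ℂ) ζ)‖) :=
            mul_le_mul_of_nonneg_right h4 (by positivity)
        _ = _ := one_mul _
  rw [integral_const_mul, polarP hP hr0] at h3
  rw [h1, norm_mul]
  have h11 : ‖(1 / Real.pi : ℂ)‖ = 1 / Real.pi := by
    rw [norm_div, norm_one, Complex.norm_real, Real.norm_of_nonneg hpi.le]
  rw [h11]
  calc 1 / Real.pi * _ ≤ 1 / Real.pi * (Real.pi * r * (1 / r ^ 2 * ∫ u in (0 : ℝ)..r, gI P u)) :=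
        mul_le_mul_of_nonneg_left h3 (by positivity)
    _ = _ := by
        field_simp

end

end Pool.Agent.TH166.QF
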