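import Pool.Agent.TH166.QF.QF4

set_option autoImplicit false

/-! # General positive densities -/

namespace Pool.Agent.TH166.QF

open Complex Metric Set Filter Topology MeasureTheory
open Pool.Agent.W677.Mar Pool.Agent.TH790.SF

section

variable {μ : ℂ → ℂ} {r : ℝ}

theorem BT_cont (hμ : Measurable μ) (hμ1 : ∀ ζ, ‖μ ζ‖ ≤ 1) (hr0 : 0 < r) (hr1 : r < 1) :
    Continuous fun θ : ℝ => BT μ (pt r θ)⁻¹ := by
  have : IsFiniteMeasure (volume.restrict (ball (0 : ℂ) 1)) := ⟨by
    rw [Measure.restrict_apply_univ]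
    exact measure_ball_lt_top⟩
  have hlow : ∀ θ : ℝ, ∀ ζ ∈ ball (0 : ℂ) 1, 1 / r - 1 ≤ ‖(pt r θ)⁻¹ - ζ‖ := by
    intro θ ζ hζ
    rw [mem_ball_zero_iff] at hζ
    have h1 := norm_sub_norm_le (pt r θ)⁻¹ ζ
    rw [norm_inv, norm_pt r θ hr0.le] at h1
    rw [one_div]
    linarith
  have hpos : 0 < 1 / r - 1 := by
    rw [sub_pos, lt_div_iff₀ hr0]
    linarith
  unfold BT
  apply continuous_const.mul
  apply continuous_of_dominated (bound := fun _ => 1 / (1 / r - 1) ^ 2)
  · intro θ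
    apply Measurable.aestronglyMeasurable
    fun_prop
  · intro θ
    refine ae_restrict_of_forall_mem measurableSet_ball fun ζ hζ => ?_
    rw [norm_div, norm_pow]
    apply div_le_div₀ zero_le_one (hμ1 ζ) (by positivity)
    exact pow_le_pow_left₀ hpos.le (hlow θ ζ hζ) 2
  · exact integrable_const _
  · refine ae_restrict_of_forall_mem measurableSet_ball fun ζ hζ => ?_
    apply continuous_const.div
    · exact (((continuous_pt r).inv₀ fun θ => pt_ne hr0 θ).sub continuous_const).pow 2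
    · intro θ
      apply pow_ne_zero
      intro h
      have := hlow θ ζ hζ
      rw [h, norm_zero] at this
      linarith

theorem BT0_cont (hμ : Measurable μ) (hμ1 : ∀ ζ, ‖μ ζ‖ ≤ 1) (hr0 : 0 < r) (hr1 : r < 1) :
    Continuous fun θ : ℝ => BT0 μ (pt r θ) := by
  have : IsFiniteMeasure (volume.restrict (ball (0 : ℂ) 1)) := ⟨by
    rw [Measure.restrict_apply_univ]
    exact measure_ball_lt_top⟩
  have hlow : ∀ θ : ℝ, ∀ ζ ∈ ball (0 : ℂ) 1, 1 - r ≤ ‖1 - pt r θ * ζ‖ := by
    intro θ ζ hζ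
    rw [mem_ball_zero_iff] at hζ
    have h1 := norm_sub_norm_le (1 : ℂ) (pt r θ * ζ)
    rw [norm_one, norm_mul, norm_pt r θ hr0.le] at h1
    nlinarith [norm_nonneg ζ]
  have hpos : 0 < 1 - r := by linarith
  have hcj : Measurable fun ζ : ℂ => (starRingEnd ℂ) ζ := continuous_conj.measurable
  unfold BT0
  apply continuous_const.mul
  apply continuous_of_dominated (bound := fun _ => 1 / (1 - r) ^ 2)
  · intro θ
    apply Measurable.aestronglyMeasurable
    fun_prop
  · intro θ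
    refine ae_restrict_of_forall_mem measurableSet_ball fun ζ hζ => ?_
    have h1 := hlow θ ζ hζ
    rw [mem_ball_zero_iff] at hζ
    rw [norm_mul, norm_mul, norm_div, norm_pow, RCLike.norm_conj, norm_pt r θ hr0.le]
    have h4 : ‖μ ζ‖ * ‖ζ‖ ≤ 1 := by nlinarith [norm_nonneg ζ, norm_nonneg (μ ζ), hμ1 ζ]
    have h5 : r / ‖1 - pt r θ * ζ‖ ^ 2 ≤ 1 / (1 - r) ^ 2 := by
      apply div_le_div₀ zero_le_one hr1.le (by positivity)
      exact pow_le_pow_left₀ hpos.le h1 2
    calc ‖μ ζ‖ * ‖ζ‖ * (r / ‖1 - pt r θ * ζ‖ ^ 2) ≤ 1 * (1 / (1 - r) ^ 2) :=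
          mul_le_mul h4 h5 (by positivity) zero_le_one
      _ = _ := one_mul _
  · exact integrable_const _
  · refine ae_restrict_of_forall_mem measurableSet_ball fun ζ hζ => ?_
    apply continuous_const.mul
    apply (continuous_pt r).div
    · exact (continuous_const.sub ((continuous_pt r).mul continuous_const)).pow 2
    · intro θ
      apply pow_ne_zero
      intro h
      have := hlow θ ζ hζ
      rw [h, norm_zero] at this
      linarith

/-- the bound for polynomial densities -/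
theorem poly_bound {P : ℂ → ℂ} (hP : Differentiable ℂ P) {c0 : ℝ} (hc0 : 0 < c0)
    (hc : ∀ φ : ℝ, c0 ≤ (P (pt 1 φ)).re) (hμ : Measurable μ) (hμ1 : ∀ ζ, ‖μ ζ‖ ≤ 1)
    (hr0 : 1 / 2 ≤ r) (hr1 : r < 1) {κ : ℝ} (hκ : 0 < κ) :
    ‖∫ θ in (0 : ℝ)..(2 * Real.pi), ((P (pt 1 θ)).re : ℂ) * BT μ (pt r θ)⁻¹‖ ≤
      12 * Real.pi * (P 0).re + 1 / r * (κ / 2 *
        ((∫ θ in (0 : ℝ)..(2 * Real.pi), (P (pt 1 θ)).re * Real.log (P (pt 1 θ)).re) -
        2 * Real.pi * ((P 0).re * Real.log (P 0).re)) +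
      Real.pi * (P 0).re / κ * lam (r ^ 2)) := by
  have hpi := Real.pi_pos
  have hr : 0 < r := by linarith
  have c1 : Continuous fun θ : ℝ => ((P (pt 1 θ)).re : ℂ) :=
    Complex.continuous_ofReal.comp (continuous_re.comp (hP.continuous.comp (continuous_pt 1)))
  have c1' : Continuous fun θ : ℝ => (P (pt 1 θ)).re :=
    continuous_re.comp (hP.continuous.comp (continuous_pt 1))
  have c2 := BT_cont hμ hμ1 hr hr1
  have c3 := BT0_cont hμ hμ1 hr hr1
  have e : ∫ θ in (0 : ℝ)..(2 * Real.pi), ((P (pt 1 θ)).re : ℂ) * BT μ (pt r θ)⁻¹ =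
      (∫ θ in (0 : ℝ)..(2 * Real.pi), ((P (pt 1 θ)).re : ℂ) * (BT μ (pt r θ)⁻¹ + BT0 μ (pt r θ))) -
      ∫ θ in (0 : ℝ)..(2 * Real.pi), ((P (pt 1 θ)).re : ℂ) * BT0 μ (pt r θ) := by
    have i1 : IntervalIntegrable (fun θ : ℝ => ((P (pt 1 θ)).re : ℂ) *
        (BT μ (pt r θ)⁻¹ + BT0 μ (pt r θ))) volume 0 (2 * Real.pi) :=
      (c1.mul (c2.add c3)).intervalIntegrable _ _
    have i2 : IntervalIntegrable (fun θ : ℝ => ((P (pt 1 θ)).re : ℂ) * BT0 μ (pt r θ))
        volume 0 (2 * Real.pi) := (c1.mul c3).intervalIntegrable _ _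
    rw [← intervalIntegral.integral_sub i1 i2]
    refine intervalIntegral.integral_congr fun θ _ => ?_
    ring
  have h1 : ‖∫ θ in (0 : ℝ)..(2 * Real.pi), ((P (pt 1 θ)).re : ℂ) *
      (BT μ (pt r θ)⁻¹ + BT0 μ (pt r θ))‖ ≤ ∫ θ in (0 : ℝ)..(2 * Real.pi), (P (pt 1 θ)).re * 6 := by
    apply intervalIntegral.norm_integral_le_of_norm_le tp_pos.le _
      ((c1'.mul continuous_const).intervalIntegrable _ _)
    refine Eventually.of_forall fun θ _ => ?_
    have h2 : 0 < (P (pt 1 θ)).re := hc0.trans_le (hc θ)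
    rw [norm_mul, Complex.norm_real, Real.norm_of_nonneg h2.le]
    apply mul_le_mul_of_nonneg_left _ h2.le
    apply rem_bound hμ hμ1
    · rw [norm_pt r θ hr.le]
      exact hr0
    · rw [norm_pt r θ hr.le]
      exact hr1
  rw [intervalIntegral.integral_mul_const, mean_re hP] at h1
  have h2 := pair0 hP hμ hμ1 hr hr1
  have h3 := grad_bound hP hc0 hc hr hr1 hκ
  have h4 : 1 / r * ∫ u in (0 : ℝ)..r, gI P u ≤ 1 / r * (κ / 2 *
        ((∫ θ in (0 : ℝ)..(2 * Real.pi), (P (pt 1 θ)).re * Real.log (P (pt 1 θ)).re) -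
        2 * Real.pi * ((P 0).re * Real.log (P 0).re)) +
      Real.pi * (P 0).re / κ * lam (r ^ 2)) := mul_le_mul_of_nonneg_left h3 (by positivity)
  rw [e]
  refine (norm_sub_le _ _).trans ?_
  linarith

/-- **the bound for a general density** -/
theorem main_mu {ρ : ℝ → ℝ} (hρc : Continuous ρ) (hρp : Function.Periodic ρ (2 * Real.pi))
    (hρ0 : ∀ θ, 0 < ρ θ) (hρ1 : ∫ θ in (0 : ℝ)..(2 * Real.pi), ρ θ = 2 * Real.pi)
    (hμ : Measurable μ) (hμ1 : ∀ ζ, ‖μ ζ‖ ≤ 1)
    (hr0 : 1 / 2 ≤ r) (hr1 : r < 1) {κ : ℝ} (hκ : 0 < κ) :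
    ‖∫ θ in (0 : ℝ)..(2 * Real.pi), (ρ θ : ℂ) * BT μ (pt r θ)⁻¹‖ ≤
      12 * Real.pi + 1 / r * (κ / 2 * (∫ θ in (0 : ℝ)..(2 * Real.pi), ρ θ * Real.log (ρ θ)) +
      Real.pi / κ * lam (r ^ 2)) := by
  have hpi := Real.pi_pos
  have hr : 0 < r := by linarith
  obtain ⟨c, hc0, hc⟩ := per_lower hρc hρp hρ0
  have hε : ∀ n : ℕ, 0 < c / 2 / (n + 1) := fun n => by positivity
  choose P hP using fun n : ℕ => trig hρc hρp (hε n)
  have hεle : ∀ n : ℕ, c / 2 / (n + 1) ≤ c / 2 := fun n => by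
    apply div_le_self (by positivity)
    have : (0 : ℝ) ≤ n := Nat.cast_nonneg n
    linarith
  have hlow : ∀ (n : ℕ) (φ : ℝ), c / 2 ≤ ((P n).eval (pt 1 φ)).re := by
    intro n φ
    have h1 := (abs_le.1 (hP n φ)).1
    have h2 := hc φ
    have h3 := hεle n
    linarith
  have hPd : ∀ n, Differentiable ℂ fun w => (P n).eval w := fun n => (P n).differentiable
  have hcN : ∀ n, Continuous fun θ : ℝ => ((P n).eval (pt 1 θ)).re := fun n =>
    continuous_re.comp ((hPd n).continuous.comp (continuous_pt 1))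
  have hlim : ∀ θ : ℝ, Tendsto (fun n => ((P n).eval (pt 1 θ)).re) atTop (𝓝 (ρ θ)) := by
    intro θ
    rw [tendsto_iff_norm_sub_tendsto_zero]
    have h0 : Tendsto (fun n : ℕ => c / 2 / ((n : ℝ) + 1)) atTop (𝓝 0) :=
      tendsto_const_nhds.div_atTop (tendsto_natCast_atTop_atTop.atTop_add tendsto_const_nhds)
    exact squeeze_zero (fun n => norm_nonneg _) (fun n => hP n θ) h0
  obtain ⟨C, hC⟩ := (isCompact_Icc (a := (0 : ℝ)) (b := 2 * Real.pi)).exists_bound_of_continuousOn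
    hρc.continuousOn
  have hup : ∀ (n : ℕ), ∀ θ ∈ Icc (0 : ℝ) (2 * Real.pi), ((P n).eval (pt 1 θ)).re ≤ C + c / 2 := by
    intro n θ hθ
    have h1 := (abs_le.1 (hP n θ)).2
    have h2 := (le_abs_self _).trans (hC θ hθ)
    have h3 := hεle n
    linarith
  -- the three limits
  have L1 : Tendsto (fun n => ∫ θ in (0 : ℝ)..(2 * Real.pi), ((P n).eval (pt 1 θ)).re) atTop
      (𝓝 (2 * Real.pi)) := by
    refine Tendsto.congr (fun _ => rfl) (?_ : Tendsto _ _ _) |> fun h => h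
    have h0 : Tendsto (fun n => ∫ θ in (0 : ℝ)..(2 * Real.pi), ((P n).eval (pt 1 θ)).re) atTop
        (𝓝 (∫ θ in (0 : ℝ)..(2 * Real.pi), ρ θ)) := ?_
    · rw [hρ1] at h0
      exact h0
    apply intervalIntegral.tendsto_integral_filter_of_dominated_convergence (fun _ => C + c / 2)
    · exact Eventually.of_forall fun n => (hcN n).aestronglyMeasurable
    · refine Eventually.of_forall fun n => Eventually.of_forall fun θ hθ => ?_
      rw [uIoc_of_le tp_pos.le] at hθ
      rw [Real.norm_of_nonneg ((half_pos hc0).le.trans (hlow n θ))]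
      exact hup n θ (Ioc_subset_Icc_self hθ)
    · exact _root_.intervalIntegrable_const
    · exact Eventually.of_forall fun θ _ => hlim θ
  have L2 : Tendsto (fun n => ∫ θ in (0 : ℝ)..(2 * Real.pi), ((P n).eval (pt 1 θ)).re *
      Real.log ((P n).eval (pt 1 θ)).re) atTop
      (𝓝 (∫ θ in (0 : ℝ)..(2 * Real.pi), ρ θ * Real.log (ρ θ))) := by
    obtain ⟨D, hD⟩ := (isCompact_Icc (a := c / 2) (b := C + c / 2)).exists_bound_of_continuousOn
      Real.continuous_mul_log.continuousOn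
    apply intervalIntegral.tendsto_integral_filter_of_dominated_convergence (fun _ => D)
    · exact Eventually.of_forall fun n =>
        (Real.continuous_mul_log.comp (hcN n)).aestronglyMeasurable
    · refine Eventually.of_forall fun n => Eventually.of_forall fun θ hθ => ?_
      rw [uIoc_of_le tp_pos.le] at hθ
      exact hD _ ⟨hlow n θ, hup n θ (Ioc_subset_Icc_self hθ)⟩
    · exact _root_.intervalIntegrable_const
    · exact Eventually.of_forall fun θ _ => (Real.continuous_mul_log.tendsto _).comp (hlim θ)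
  have c2 := BT_cont hμ hμ1 hr hr1
  have L3 : Tendsto (fun n => ∫ θ in (0 : ℝ)..(2 * Real.pi), (((P n).eval (pt 1 θ)).re : ℂ) *
      BT μ (pt r θ)⁻¹) atTop (𝓝 (∫ θ in (0 : ℝ)..(2 * Real.pi), (ρ θ : ℂ) * BT μ (pt r θ)⁻¹)) := by
    apply intervalIntegral.tendsto_integral_filter_of_dominated_convergence
      (fun θ => (C + c / 2) * ‖BT μ (pt r θ)⁻¹‖)
    · exact Eventually.of_forall fun n =>
        ((Complex.continuous_ofReal.comp (hcN n)).mul c2).aestronglyMeasurable
    · refine Eventually.of_forall fun n => Eventually.of_forall fun θ hθ => ?_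
      rw [uIoc_of_le tp_pos.le] at hθ
      rw [norm_mul, Complex.norm_real, Real.norm_of_nonneg ((half_pos hc0).le.trans (hlow n θ))]
      exact mul_le_mul_of_nonneg_right (hup n θ (Ioc_subset_Icc_self hθ)) (norm_nonneg _)
    · exact (continuous_const.mul c2.norm).intervalIntegrable _ _
    · refine Eventually.of_forall fun θ _ => ?_
      exact ((Complex.continuous_ofReal.tendsto _).comp (hlim θ)).mul_const _
  have L4 : Tendsto (fun n => ((P n).eval 0).re) atTop (𝓝 1) := by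
    have h1 := L1.const_mul (1 / (2 * Real.pi))
    have e1 : 1 / (2 * Real.pi) * (2 * Real.pi) = 1 := by field_simp
    rw [e1] at h1
    refine h1.congr fun n => ?_
    rw [mean_re (hPd n)]
    field_simp
  have L5 : Tendsto (fun n => ((P n).eval 0).re * Real.log ((P n).eval 0).re) atTop
      (𝓝 (1 * Real.log 1)) := (Real.continuous_mul_log.tendsto _).comp L4
  have hB := ((L4.const_mul (12 * Real.pi)).add ((((L2.sub (L5.const_mul (2 * Real.pi))).const_mul
    (κ / 2)).add (((L4.const_mul Real.pi).div_const κ).mul_const (lam (r ^ 2)))).const_mul (1 / r)))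
  simp only [Real.log_one, mul_zero, sub_zero, mul_one] at hB
  refine le_of_tendsto_of_tendsto' L3.norm hB fun n => ?_
  exact poly_bound (hPd n) (half_pos hc0) (hlow n) hμ hμ1 hr0 hr1 hκ

end

end Pool.Agent.TH166.QF
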