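import Pool.Agent.TH166.QF.QF5
import Pool.Agent.W677.MarT

set_option autoImplicit false

/-! # Schwarz-Pick, and the holomorphic dependence on the parameter -/

namespace Pool.Agent.TH166.QF

open Complex Metric Set Filter Topology MeasureTheory
open Pool.Agent.W677.Mar Pool.Agent.TH790.SF

/-- the algebra of the Schwarz-Pick lemma -/
theorem sp_alg {M β τ p : ℝ} {b q : ℂ} (hM : 0 < M) (hb : ‖b‖ = β) (hβM : β < M) (hq : ‖q‖ = p)
    (hpτ : p ≤ τ) (hτ : τ < 1) : ‖M * q + b‖ * (M + β * τ) ≤ (M * τ + β) * ‖M + (starRingEnd ℂ) b * q‖ := by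
  have hβ0 : 0 ≤ β := hb ▸ norm_nonneg b
  have hp0 : 0 ≤ p := hq ▸ norm_nonneg q
  have hτ0 : 0 ≤ τ := hp0.trans hpτ
  have e1 : ‖(M : ℂ) + (starRingEnd ℂ) b * q‖ ^ 2 - ‖M * q + b‖ ^ 2 = (M ^ 2 - β ^ 2) * (1 - p ^ 2) := by
    rw [← hb, ← hq]
    simp only [← Complex.normSq_eq_norm_sq, Complex.normSq_apply, add_re, add_im, mul_re, mul_im,
      ofReal_re, ofReal_im, conj_re, conj_im]
    ring
  have e2 : ‖(M : ℂ) + (starRingEnd ℂ) b * q‖ ≤ M + β * τ := by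
    refine (norm_add_le _ _).trans ?_
    rw [norm_mul, RCLike.norm_conj, hb, hq, Complex.norm_real, Real.norm_of_nonneg hM.le]
    have := mul_le_mul_of_nonneg_left hpτ hβ0
    linarith
  obtain ⟨D, hD⟩ : ∃ D, D = ‖(M : ℂ) + (starRingEnd ℂ) b * q‖ := ⟨_, rfl⟩
  obtain ⟨N, hN⟩ : ∃ N, N = ‖M * q + b‖ := ⟨_, rfl⟩
  rw [← hD, ← hN] at e1
  rw [← hD] at e2 ⊢
  rw [← hN]
  have hD0 : 0 ≤ D := hD ▸ norm_nonneg _
  have hN0 : 0 ≤ N := hN ▸ norm_nonneg _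
  apply le_of_sq_le_sq _ (by positivity)
  have h1 : N ^ 2 = D ^ 2 - (M ^ 2 - β ^ 2) * (1 - p ^ 2) := by linarith
  have h2 : (M + β * τ) ^ 2 - (M ^ 2 - β ^ 2) * (1 - τ ^ 2) = (M * τ + β) ^ 2 := by ring
  have h3 : 0 ≤ (M ^ 2 - β ^ 2) := by nlinarith
  have h4 : D ^ 2 ≤ (M + β * τ) ^ 2 := pow_le_pow_left₀ hD0 e2 2
  have h5 : 1 - τ ^ 2 ≤ 1 - p ^ 2 := by nlinarith
  have h6 : 0 ≤ 1 - τ ^ 2 := by nlinarith
  have h7 : (M ^ 2 - β ^ 2) * (1 - τ ^ 2) * D ^ 2 ≤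
      (M ^ 2 - β ^ 2) * (1 - p ^ 2) * (M + β * τ) ^ 2 := by
    calc (M ^ 2 - β ^ 2) * (1 - τ ^ 2) * D ^ 2 ≤ (M ^ 2 - β ^ 2) * (1 - p ^ 2) * D ^ 2 :=
          mul_le_mul_of_nonneg_right (mul_le_mul_of_nonneg_left h5 h3) (sq_nonneg D)
      _ ≤ _ := mul_le_mul_of_nonneg_left h4 (mul_nonneg h3 (h6.trans h5))
  calc (N * (M + β * τ)) ^ 2 = D ^ 2 * (M + β * τ) ^ 2 -
        (M ^ 2 - β ^ 2) * (1 - p ^ 2) * (M + β * τ) ^ 2 := by rw [mul_pow, h1]; ring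
    _ ≤ D ^ 2 * (M + β * τ) ^ 2 - (M ^ 2 - β ^ 2) * (1 - τ ^ 2) * D ^ 2 := by linarith
    _ = ((M * τ + β) * D) ^ 2 := by rw [mul_pow, ← h2]; ring

/-- a Schwarz-Pick lemma: `f(0) = 0`, `|f| ≤ 4 X`, `|f'(0)| ≤ X` -/
theorem sp {f : ℂ → ℂ} (hf : DifferentiableOn ℂ f (ball 0 1)) (h0 : f 0 = 0) {X : ℝ} (hX : 0 < X)
    (hM : ∀ z ∈ ball (0 : ℂ) 1, ‖f z‖ ≤ 4 * X) (hd : ‖deriv f 0‖ ≤ X) {z : ℂ}
    (hz : z ∈ ball (0 : ℂ) 1) : ‖f z‖ ≤ 4 * ‖z‖ * (1 + 4 * ‖z‖) / (4 + ‖z‖) * X := by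
  have hnhds : ball (0 : ℂ) 1 ∈ 𝓝 (0 : ℂ) := isOpen_ball.mem_nhds (mem_ball_self one_pos)
  set g : ℂ → ℂ := dslope f 0 with hg
  have hgd : DifferentiableOn ℂ g (ball 0 1) := (Complex.differentiableOn_dslope hnhds).2 hf
  have hg0 : g 0 = deriv f 0 := dslope_same f 0
  have hgM : ∀ z ∈ ball (0 : ℂ) 1, ‖g z‖ ≤ 4 * X := by
    intro z hz
    have h1 : MapsTo f (ball 0 1) (closedBall (f 0) (4 * X)) := by
      intro w hw
      rw [h0, mem_closedBall_zero_iff]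
      exact hM w hw
    have h2 := Complex.norm_dslope_le_div_of_mapsTo_ball hf h1 hz
    rwa [div_one] at h2
  set b : ℂ := g 0 with hb
  have hbX : ‖b‖ ≤ X := by rw [hg0]; exact hd
  have hM4 : 0 < 4 * X := by linarith
  have hMc : ((4 * X : ℝ) : ℂ) ≠ 0 := by exact_mod_cast hM4.ne'
  have hden : ∀ z ∈ ball (0 : ℂ) 1, ((4 * X : ℝ) : ℂ) ^ 2 - (starRingEnd ℂ) b * g z ≠ 0 := by
    intro z hz h
    have h1 : (starRingEnd ℂ) b * g z = ((4 * X : ℝ) : ℂ) ^ 2 := (sub_eq_zero.1 h).symm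
    have h2 : ‖(starRingEnd ℂ) b * g z‖ = (4 * X) ^ 2 := by
      rw [h1, norm_pow, Complex.norm_real, Real.norm_of_nonneg hM4.le]
    rw [norm_mul, RCLike.norm_conj] at h2
    have h3 := hgM z hz
    nlinarith [norm_nonneg b, norm_nonneg (g z), mul_le_mul hbX h3 (norm_nonneg _) hX.le]
  set φ : ℂ → ℂ := fun z => ((4 * X : ℝ) : ℂ) * (g z - b) /
    (((4 * X : ℝ) : ℂ) ^ 2 - (starRingEnd ℂ) b * g z) with hφ
  have hφd : DifferentiableOn ℂ φ (ball 0 1) := by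
    apply DifferentiableOn.div
    · exact (hgd.sub_const b).const_mul _
    · exact (hgd.const_mul _).const_sub _
    · exact hden
  have hφ1 : MapsTo φ (ball 0 1) (closedBall 0 1) := by
    intro w hw
    rw [mem_closedBall_zero_iff, hφ]
    simp only
    rw [norm_div, div_le_one (norm_pos_iff.2 (hden w hw))]
    apply le_of_sq_le_sq _ (norm_nonneg _)
    have h3 := hgM w hw
    have h4 : ‖((4 * X : ℝ) : ℂ) ^ 2 - (starRingEnd ℂ) b * g w‖ ^ 2 -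
        ‖((4 * X : ℝ) : ℂ) * (g w - b)‖ ^ 2 = ((4 * X) ^ 2 - ‖g w‖ ^ 2) * ((4 * X) ^ 2 - ‖b‖ ^ 2) := by
      rw [← Complex.ofReal_pow]
      simp only [← Complex.normSq_eq_norm_sq, Complex.normSq_apply, sub_re, sub_im, mul_re, mul_im,
        ofReal_re, ofReal_im, conj_re, conj_im]
      ring
    have h5 : 0 ≤ ((4 * X) ^ 2 - ‖g w‖ ^ 2) * ((4 * X) ^ 2 - ‖b‖ ^ 2) := by
      apply mul_nonneg
      · nlinarith [norm_nonneg (g w)]
      · nlinarith [norm_nonneg b]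
    linarith
  have hφ0 : φ 0 = 0 := by simp [hφ, hb]
  have hz1 : ‖z‖ < 1 := mem_ball_zero_iff.1 hz
  have hφz : ‖φ z‖ ≤ ‖z‖ := Complex.norm_le_norm_of_mapsTo_ball hφd hφ1 hφ0 hz1
  -- solve for `g z`
  have hsol : g z * (((4 * X : ℝ) : ℂ) + (starRingEnd ℂ) b * φ z) =
      ((4 * X : ℝ) : ℂ) * (((4 * X : ℝ) : ℂ) * φ z + b) := by
    have h1 : φ z * (((4 * X : ℝ) : ℂ) ^ 2 - (starRingEnd ℂ) b * g z) =
        ((4 * X : ℝ) : ℂ) * (g z - b) := by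
      rw [hφ]
      simp only
      rw [div_mul_cancel₀ _ (hden z hz)]
    generalize φ z = q at h1 ⊢
    linear_combination (-1) * h1
  have halg := sp_alg (q := φ z) hM4 (rfl : ‖b‖ = ‖b‖) (by linarith) rfl hφz hz1
  have hgz : ‖g z‖ ≤ 4 * (1 + 4 * ‖z‖) / (4 + ‖z‖) * X := by
    obtain ⟨D, hD⟩ : ∃ D, D = ‖((4 * X : ℝ) : ℂ) + (starRingEnd ℂ) b * φ z‖ := ⟨_, rfl⟩
    have hDpos : 0 < D := by
      have h1 := norm_sub_norm_le ((4 * X : ℝ) : ℂ) (-((starRingEnd ℂ) b * φ z))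
      rw [sub_neg_eq_add, norm_neg, norm_mul, RCLike.norm_conj, Complex.norm_real,
        Real.norm_of_nonneg hM4.le, ← hD] at h1
      nlinarith [norm_nonneg b, norm_nonneg (φ z), mul_le_mul hbX (hφz.trans hz1.le) (norm_nonneg _) hX.le]
    rw [← hD] at halg
    have h1 : ‖g z‖ * D = 4 * X * ‖((4 * X : ℝ) : ℂ) * φ z + b‖ := by
      rw [hD, ← norm_mul, hsol, norm_mul, Complex.norm_real, Real.norm_of_nonneg hM4.le]
    obtain ⟨τ, hτ⟩ : ∃ τ, τ = ‖z‖ := ⟨_, rfl⟩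
    obtain ⟨β, hβ⟩ : ∃ β, β = ‖b‖ := ⟨_, rfl⟩
    rw [← hτ, ← hβ] at halg
    rw [← hτ]
    rw [← hβ] at hbX
    have hτ0 : 0 ≤ τ := hτ ▸ norm_nonneg z
    have hβ0 : 0 ≤ β := hβ ▸ norm_nonneg b
    have hτ1 : τ < 1 := hτ ▸ hz1
    have hp : 0 < 4 * X + β * τ := by positivity
    have h2 : ‖g z‖ * (4 * X + β * τ) ≤ 4 * X * (4 * X * τ + β) := by
      have h3 : (‖g z‖ * (4 * X + β * τ)) * D ≤ (4 * X * (4 * X * τ + β)) * D := by
        calc (‖g z‖ * (4 * X + β * τ)) * D = 4 * X * (‖((4 * X : ℝ) : ℂ) * φ z + b‖ *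
              (4 * X + β * τ)) := by rw [← mul_assoc, ← h1]; ring
          _ ≤ 4 * X * ((4 * X * τ + β) * D) := mul_le_mul_of_nonneg_left halg hM4.le
          _ = _ := by ring
      exact le_of_mul_le_mul_right h3 hDpos
    have h4 : 4 * X * (4 * X * τ + β) ≤ 4 * (1 + 4 * τ) / (4 + τ) * X * (4 * X + β * τ) := by
      rw [div_mul_eq_mul_div, div_mul_eq_mul_div, le_div_iff₀ (by positivity)]
      have h5 : 0 ≤ 16 * X * (X - β) * (1 - τ ^ 2) := by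
        have : 0 ≤ 1 - τ ^ 2 := by nlinarith
        have : 0 ≤ X - β := by linarith
        positivity
      nlinarith
    exact le_of_mul_le_mul_right (h2.trans h4) hp
  have hfz : f z = z * g z := by
    have := sub_smul_dslope f 0 z
    rw [sub_zero, h0, sub_zero, smul_eq_mul] at this
    exact this.symm
  rw [hfz, norm_mul]
  calc ‖z‖ * ‖g z‖ ≤ ‖z‖ * (4 * (1 + 4 * ‖z‖) / (4 + ‖z‖) * X) :=
        mul_le_mul_of_nonneg_left hgz (norm_nonneg z)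
    _ = _ := by ring

/-- Gibbs' variational inequality -/
theorem gibbs {ρ u : ℝ → ℝ} (hρc : Continuous ρ) (hρ0 : ∀ θ, 0 < ρ θ)
    (hρ1 : ∫ θ in (0 : ℝ)..(2 * Real.pi), ρ θ = 2 * Real.pi) (hu : Continuous u) {Z : ℝ} (hZ : 0 < Z)
    (h : ∫ θ in (0 : ℝ)..(2 * Real.pi), Real.exp (u θ) ≤ 2 * Real.pi * Z) :
    ∫ θ in (0 : ℝ)..(2 * Real.pi), ρ θ * u θ ≤
      (∫ θ in (0 : ℝ)..(2 * Real.pi), ρ θ * Real.log (ρ θ)) + 2 * Real.pi * Real.log Z := by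
  have hpi := Real.pi_pos
  have c1 : Continuous fun θ => ρ θ * Real.log (ρ θ) := Real.continuous_mul_log.comp hρc
  have c2 : Continuous fun θ => Real.exp (u θ) := Real.continuous_exp.comp hu
  have h1 : ∫ θ in (0 : ℝ)..(2 * Real.pi), ρ θ * u θ ≤ ∫ θ in (0 : ℝ)..(2 * Real.pi),
      ((ρ θ * Real.log (ρ θ) + ρ θ * (Real.log Z - 1)) + Real.exp (u θ) * Z⁻¹) := by
    apply intervalIntegral.integral_mono_on tp_pos.le
    · exact (hρc.mul hu).intervalIntegrable _ _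
    · exact ((c1.add (hρc.mul continuous_const)).add (c2.mul continuous_const)).intervalIntegrable _ _
    · intro θ _
      have h2 : 0 < Real.exp (u θ) * Z⁻¹ / ρ θ := by
        have := hρ0 θ
        positivity
      have h3 := Real.log_le_sub_one_of_pos h2
      rw [Real.log_div (by positivity) (hρ0 θ).ne', Real.log_mul (Real.exp_pos _).ne' (by positivity),
        Real.log_exp, Real.log_inv] at h3
      have h4 := mul_le_mul_of_nonneg_left h3 (hρ0 θ).le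
      have h5 : ρ θ * (Real.exp (u θ) * Z⁻¹ / ρ θ - 1) = Real.exp (u θ) * Z⁻¹ - ρ θ := by
        have := (hρ0 θ).ne'
        field_simp
      rw [h5] at h4
      linarith
  have i1 : IntervalIntegrable (fun θ => ρ θ * Real.log (ρ θ)) volume 0 (2 * Real.pi) :=
    c1.intervalIntegrable _ _
  have i2 : IntervalIntegrable (fun θ => ρ θ * (Real.log Z - 1)) volume 0 (2 * Real.pi) :=
    (hρc.mul continuous_const).intervalIntegrable _ _
  have i3 : IntervalIntegrable (fun θ => ρ θ * Real.log (ρ θ) + ρ θ * (Real.log Z - 1))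
      volume 0 (2 * Real.pi) := i1.add i2
  have i4 : IntervalIntegrable (fun θ => Real.exp (u θ) * Z⁻¹) volume 0 (2 * Real.pi) :=
    (c2.mul continuous_const).intervalIntegrable _ _
  rw [intervalIntegral.integral_add i3 i4, intervalIntegral.integral_add i1 i2,
    intervalIntegral.integral_mul_const, intervalIntegral.integral_mul_const, hρ1] at h1
  have h6 : (∫ θ in (0 : ℝ)..(2 * Real.pi), Real.exp (u θ)) * Z⁻¹ ≤ 2 * Real.pi := by
    rw [mul_inv_le_iff₀ hZ]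
    exact h
  linarith

end Pool.Agent.TH166.QF
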