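import Pool.Agent.TH166.QF.QF6

set_option autoImplicit false

/-! # Families -/

namespace Pool.Agent.TH166.QF

open Complex Metric Set Filter Topology MeasureTheory
open Pool.Agent.W677.Mar Pool.Agent.TH790.SF

/-- a Beltrami family in disc coordinates -/
structure Fam (Y H : ℂ → ℂ → ℂ) (μ : ℂ → ℂ) : Prop where
  sg : ∀ l ∈ ball (0 : ℂ) 1, Sg (Y l) (H l)
  hol : ∀ w ∈ ball (0 : ℂ) 1, DifferentiableOn ℂ (fun l => H l w) (ball 0 1)
  zero : ∀ w ∈ ball (0 : ℂ) 1, H 0 w = 0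
  meas : Measurable μ
  le_one : ∀ ζ, ‖μ ζ‖ ≤ 1
  der : ∀ w ∈ ball (0 : ℂ) 1, w ≠ 0 → deriv (fun l => H l w) 0 = BT μ w⁻¹

section

variable {Y H : ℂ → ℂ → ℂ} {μ : ℂ → ℂ}

/-- the pairing as a function of the parameter -/
noncomputable def JJ' (H : ℂ → ℂ → ℂ) (ρ : ℝ → ℝ) (r : ℝ) (l : ℂ) : ℂ :=
  ∫ θ in (0 : ℝ)..(2 * Real.pi), (ρ θ : ℂ) * H l (pt r θ)

theorem J_deriv (S : Fam Y H μ) {ρ : ℝ → ℝ} (hρc : Continuous ρ) {r : ℝ} (hr0 : 0 < r) (hr1 : r < 1)
    {l : ℂ} (hl : l ∈ ball (0 : ℂ) 1) :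
    HasDerivAt (JJ' H ρ r) (∫ θ in (0 : ℝ)..(2 * Real.pi), (ρ θ : ℂ) *
      deriv (fun l => H l (pt r θ)) l) l := by
  have hmem : ∀ θ : ℝ, pt r θ ∈ ball (0 : ℂ) 1 := fun θ => pt_mem hr0.le hr1 θ
  have hl1 : ‖l‖ < 1 := mem_ball_zero_iff.1 hl
  obtain ⟨ε, hε⟩ : ∃ ε, ε = (1 - ‖l‖) / 2 := ⟨_, rfl⟩
  have hε0 : 0 < ε := by rw [hε]; linarith
  have hcρ : Continuous fun θ => (ρ θ : ℂ) := Complex.continuous_ofReal.comp hρc
  have hcH : ∀ x ∈ ball (0 : ℂ) 1, Continuous fun θ : ℝ => H x (pt r θ) := fun x hx =>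
    cont_circ (S.sg x hx).dH hr0.le hr1
  have hbd : ∀ x ∈ ball (0 : ℂ) 1, ∀ θ : ℝ, ‖H x (pt r θ)‖ ≤ lam (r ^ 2) := by
    intro x hx θ
    have := goluzin (S.sg x hx) (hmem θ)
    rwa [norm_pt r θ hr0.le] at this
  have hcb : ∀ x ∈ ball l ε, closedBall x ε ⊆ ball (0 : ℂ) 1 := by
    intro x hx y hy
    rw [mem_ball_zero_iff]
    rw [mem_ball, dist_eq_norm] at hx
    rw [mem_closedBall, dist_eq_norm] at hy
    have h1 : ‖y‖ ≤ ‖y - x‖ + ‖x - l‖ + ‖l‖ := by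
      have h2 : y = (y - x) + (x - l) + l := by ring
      calc ‖y‖ = ‖(y - x) + (x - l) + l‖ := by rw [← h2]
        _ ≤ _ := norm_add₃_le
    rw [hε] at hx hy
    linarith
  refine (intervalIntegral.hasDerivAt_integral_of_dominated_loc_of_deriv_le (𝕜 := ℂ)
    (bound := fun θ => ‖ρ θ‖ * (lam (r ^ 2) / ε))
    (F := fun x θ => (ρ θ : ℂ) * H x (pt r θ))
    (F' := fun x θ => (ρ θ : ℂ) * deriv (fun l => H l (pt r θ)) x)
    (ball_mem_nhds l hε0) ?_ ?_ ?_ ?_ ?_ ?_).2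
  · filter_upwards [isOpen_ball.mem_nhds hl] with x hx
    exact (hcρ.mul (hcH x hx)).aestronglyMeasurable
  · exact (hcρ.mul (hcH l hl)).intervalIntegrable _ _
  · -- measurability of the derivative
    have h0 : Tendsto (fun n : ℕ => ((1 / ((n : ℝ) + 1) : ℝ) : ℂ) * ε) atTop (𝓝[≠] 0) := by
      rw [tendsto_nhdsWithin_iff]
      constructor
      · have h1 : Tendsto (fun n : ℕ => (1 / ((n : ℝ) + 1))) atTop (𝓝 0) :=
          tendsto_one_div_add_atTop_nhds_zero_nat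
        have h2 := ((Complex.continuous_ofReal.tendsto 0).comp h1).mul_const (ε : ℂ)
        simp only [Complex.ofReal_zero, zero_mul] at h2
        exact h2
      · refine Eventually.of_forall fun n => ?_
        have h1 : (0 : ℝ) < 1 / ((n : ℝ) + 1) := by positivity
        have h3 : ((1 / ((n : ℝ) + 1) : ℝ) : ℂ) ≠ 0 := by exact_mod_cast h1.ne'
        have h4 : (ε : ℂ) ≠ 0 := by exact_mod_cast hε0.ne'
        exact mul_ne_zero h3 h4
    have h5 : ∀ n : ℕ, l + ((1 / ((n : ℝ) + 1) : ℝ) : ℂ) * ε ∈ ball (0 : ℂ) 1 := by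
      intro n
      apply hcb l (mem_ball_self hε0)
      rw [mem_closedBall, dist_eq_norm, add_sub_cancel_left, norm_mul, Complex.norm_real,
        Complex.norm_real, Real.norm_of_nonneg (by positivity), Real.norm_of_nonneg hε0.le]
      have h6 : 1 / ((n : ℝ) + 1) ≤ 1 := by
        rw [div_le_one (by positivity)]
        have : (0 : ℝ) ≤ n := Nat.cast_nonneg n
        linarith
      nlinarith
    apply hcρ.aestronglyMeasurable.mul
    apply aestronglyMeasurable_of_tendsto_ae atTop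
      (f := fun (n : ℕ) (θ : ℝ) => (((1 / ((n : ℝ) + 1) : ℝ) : ℂ) * ε)⁻¹ •
        (H (l + ((1 / ((n : ℝ) + 1) : ℝ) : ℂ) * ε) (pt r θ) - H l (pt r θ)))
    · intro n
      exact (((hcH _ (h5 n)).sub (hcH l hl)).const_smul
        ((((1 / ((n : ℝ) + 1) : ℝ) : ℂ) * ε)⁻¹)).aestronglyMeasurable
    · refine Eventually.of_forall fun θ => ?_
      have h6 := ((S.hol _ (hmem θ)).differentiableAt (isOpen_ball.mem_nhds hl)).hasDerivAt
      exact (hasDerivAt_iff_tendsto_slope_zero.1 h6).comp h0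
  · refine Eventually.of_forall fun θ _ x hx => ?_
    rw [norm_mul, Complex.norm_real]
    apply mul_le_mul_of_nonneg_left _ (norm_nonneg _)
    apply Complex.norm_deriv_le_of_forall_mem_sphere_norm_le hε0
    · apply DifferentiableOn.diffContOnCl
      apply (S.hol _ (hmem θ)).mono
      rw [closure_ball x hε0.ne']
      exact hcb x hx
    · intro y hy
      exact hbd y (hcb x hx (sphere_subset_closedBall hy)) θ
  · exact (hρc.norm.mul continuous_const).intervalIntegrable _ _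
  · refine Eventually.of_forall fun θ _ x hx => ?_
    have hx1 : x ∈ ball (0 : ℂ) 1 := hcb x hx (mem_closedBall_self hε0.le)
    exact ((S.hol _ (hmem θ)).differentiableAt (isOpen_ball.mem_nhds hx1)).hasDerivAt.const_mul _

/-- the bound of the pairing by the entropy -/
theorem J_bound (S : Fam Y H μ) {ρ : ℝ → ℝ} (hρc : Continuous ρ)
    (hρ0 : ∀ θ, 0 < ρ θ) (hρ1 : ∫ θ in (0 : ℝ)..(2 * Real.pi), ρ θ = 2 * Real.pi)
    {r : ℝ} (hr0 : 0 < r) (hr1 : r < 1) {κ : ℝ} (hκ : 0 < κ) {l : ℂ} (hl : l ∈ ball (0 : ℂ) 1) :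
    ‖JJ' H ρ r l‖ ≤ 4 * (κ / 2 * (∫ θ in (0 : ℝ)..(2 * Real.pi), ρ θ * Real.log (ρ θ)) +
      Real.pi / κ * lam (r ^ 2)) := by
  have hpi := Real.pi_pos
  have hcH : Continuous fun θ : ℝ => H l (pt r θ) := cont_circ (S.sg l hl).dH hr0.le hr1
  have hcρ : Continuous fun θ => (ρ θ : ℂ) := Complex.continuous_ofReal.comp hρc
  obtain ⟨A, hA⟩ : ∃ A, A = ∫ θ in (0 : ℝ)..(2 * Real.pi), ρ θ * Real.log (ρ θ) := ⟨_, rfl⟩
  obtain ⟨L, hL⟩ : ∃ L, L = lam (r ^ 2) := ⟨_, rfl⟩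
  have key : ∀ t : ℂ, ((starRingEnd ℂ) t * JJ' H ρ r l).re ≤ A + 2 * Real.pi * (4 * ‖t‖ ^ 2 * L) := by
    intro t
    have h1 := gibbs hρc hρ0 hρ1 (u := fun θ => ((starRingEnd ℂ) t * H l (pt r θ)).re)
      (continuous_re.comp (continuous_const.mul hcH)) (Real.exp_pos (4 * ‖t‖ ^ 2 * L)) (by
        rw [hL]
        exact exp_mom (S.sg l hl) t hr0 hr1)
    rw [Real.log_exp, ← hA] at h1
    have h2 : ((starRingEnd ℂ) t * JJ' H ρ r l).re =
        ∫ θ in (0 : ℝ)..(2 * Real.pi), ρ θ * ((starRingEnd ℂ) t * H l (pt r θ)).re := by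
      unfold JJ'
      rw [← intervalIntegral.integral_const_mul]
      have h3 : (∫ θ in (0 : ℝ)..(2 * Real.pi), Complex.reCLM
          ((starRingEnd ℂ) t * ((ρ θ : ℂ) * H l (pt r θ)))) =
          Complex.reCLM (∫ θ in (0 : ℝ)..(2 * Real.pi),
            (starRingEnd ℂ) t * ((ρ θ : ℂ) * H l (pt r θ))) :=
        ContinuousLinearMap.intervalIntegral_comp_comm _
          ((continuous_const.mul (hcρ.mul hcH)).intervalIntegrable 0 (2 * Real.pi))
      simp only [Complex.reCLM_apply] at h3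
      rw [← h3]
      refine intervalIntegral.integral_congr fun θ _ => ?_
      have : (starRingEnd ℂ) t * ((ρ θ : ℂ) * H l (pt r θ)) =
          (ρ θ : ℂ) * ((starRingEnd ℂ) t * H l (pt r θ)) := by ring
      simp only [this, Complex.re_ofReal_mul]
    rw [h2]
    exact h1
  rw [← hA, ← hL]
  obtain ⟨j, hj⟩ : ∃ j, j = JJ' H ρ r l := ⟨_, rfl⟩
  rw [← hj] at key ⊢
  by_cases hj0 : j = 0
  · have h1 := key 0
    rw [hj0]
    simp only [map_zero, zero_mul, zero_re, norm_zero, ne_eq, OfNat.ofNat_ne_zero, not_false_eq_true,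
      zero_pow, mul_zero, add_zero] at h1
    have hL0 : 0 ≤ L := by
      rw [hL]
      exact lam_nonneg (sq_nonneg r) (pow_lt_one₀ hr0.le hr1 two_ne_zero)
    rw [norm_zero]
    positivity
  · have hn : 0 < ‖j‖ := norm_pos_iff.2 hj0
    have h1 := key (((1 / (2 * κ) / ‖j‖ : ℝ) : ℂ) * j)
    have h2 : ((starRingEnd ℂ) (((1 / (2 * κ) / ‖j‖ : ℝ) : ℂ) * j) * j).re = 1 / (2 * κ) * ‖j‖ := by
      rw [map_mul, Complex.conj_ofReal, mul_assoc, Complex.re_ofReal_mul]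
      have : ((starRingEnd ℂ) j * j).re = ‖j‖ ^ 2 := by
        rw [mul_comm, Complex.mul_conj, Complex.ofReal_re, Complex.normSq_eq_norm_sq]
      rw [this]
      field_simp
    have h3 : ‖((1 / (2 * κ) / ‖j‖ : ℝ) : ℂ) * j‖ = 1 / (2 * κ) := by
      rw [norm_mul, Complex.norm_real, Real.norm_of_nonneg (by positivity)]
      field_simp
    rw [h2, h3] at h1
    have h4 : ‖j‖ = 2 * κ * (1 / (2 * κ) * ‖j‖) := by field_simp
    rw [h4]
    calc 2 * κ * (1 / (2 * κ) * ‖j‖) ≤ 2 * κ * (A + 2 * Real.pi * (4 * (1 / (2 * κ)) ^ 2 * L)) :=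
          mul_le_mul_of_nonneg_left h1 (by positivity)
      _ = _ := by
          field_simp
          ring

/-- **exponential moments in a family** -/
theorem fam_mom (S : Fam Y H μ) {k : ℝ} (hk0 : 0 < k) (hk1 : k < 1) {l : ℂ} (hl : ‖l‖ ≤ k)
    {r : ℝ} (hr0 : 1 / 2 ≤ r) (hr1 : r < 1) (t : ℂ) :
    ∫ θ in (0 : ℝ)..(2 * Real.pi), Real.exp ((starRingEnd ℂ) t * H l (pt r θ)).re ≤
      2 * Real.pi * (1 * Real.exp (6 * (4 * k * (1 + 4 * k) / (4 + k)) * ‖t‖) *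
        Real.exp ((4 * k * (1 + 4 * k) / (4 + k)) ^ 2 / (4 * r ^ 2) * lam (r ^ 2) * ‖t‖ ^ 2)) := by
  have hpi := Real.pi_pos
  have hr : 0 < r := by linarith
  have hlb : l ∈ ball (0 : ℂ) 1 := mem_ball_zero_iff.2 (hl.trans_lt hk1)
  obtain ⟨c, hc⟩ : ∃ c, c = 4 * k * (1 + 4 * k) / (4 + k) := ⟨_, rfl⟩
  have hc0 : 0 < c := by rw [hc]; positivity
  rw [← hc]
  obtain ⟨L, hL⟩ : ∃ L, L = lam (r ^ 2) := ⟨_, rfl⟩
  have hL0 : 0 < L := by
    rw [hL]
    exact lam_pos (by positivity) (pow_lt_one₀ hr.le hr1 two_ne_zero)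
  have hcH : Continuous fun θ : ℝ => H l (pt r θ) := cont_circ (S.sg l hlb).dH hr.le hr1
  obtain ⟨u, hu⟩ : ∃ u : ℝ → ℝ, ∀ θ, u θ = ((starRingEnd ℂ) t * H l (pt r θ)).re := ⟨_, fun _ => rfl⟩
  have hue : u = fun θ => ((starRingEnd ℂ) t * H l (pt r θ)).re := funext hu
  have huc : Continuous u := by
    rw [hue]
    exact continuous_re.comp (continuous_const.mul hcH)
  have hup : Function.Periodic u (2 * Real.pi) := fun θ => by
    rw [hu, hu, pt_periodic r θ]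
  have hec : Continuous fun θ => Real.exp (u θ) := Real.continuous_exp.comp huc
  simp only [← hu]
  by_cases ht : t = 0
  · have h1 : ∀ θ, u θ = 0 := fun θ => by rw [hu, ht]; simp
    simp only [h1, ht, norm_zero, mul_zero, Real.exp_zero, ne_eq, OfNat.ofNat_ne_zero,
      not_false_eq_true, zero_pow, mul_one]
    rw [intervalIntegral.integral_const]
    simp
  have htn : 0 < ‖t‖ := norm_pos_iff.2 ht
  obtain ⟨I, hI⟩ : ∃ I, I = ∫ θ in (0 : ℝ)..(2 * Real.pi), Real.exp (u θ) := ⟨_, rfl⟩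
  have hI0 : 0 < I := by
    rw [hI]
    exact intervalIntegral.intervalIntegral_pos_of_pos (hec.intervalIntegrable _ _)
      (fun θ => Real.exp_pos _) tp_pos
  obtain ⟨Z, hZ⟩ : ∃ Z, Z = I / (2 * Real.pi) := ⟨_, rfl⟩
  have hZ0 : 0 < Z := by rw [hZ]; positivity
  have hIZ : I = 2 * Real.pi * Z := by rw [hZ]; field_simp
  rw [← hI, hIZ]
  apply mul_le_mul_of_nonneg_left _ tp_pos.le
  rw [one_mul, ← Real.exp_add, ← Real.log_le_iff_le_exp hZ0]
  -- the density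
  obtain ⟨ρ, hρ⟩ : ∃ ρ : ℝ → ℝ, ∀ θ, ρ θ = Real.exp (u θ) / Z := ⟨_, fun _ => rfl⟩
  have hρe : ρ = fun θ => Real.exp (u θ) / Z := funext hρ
  have hρc : Continuous ρ := by rw [hρe]; exact hec.div_const Z
  have hρp : Function.Periodic ρ (2 * Real.pi) := fun θ => by rw [hρ, hρ, hup θ]
  have hρ0 : ∀ θ, 0 < ρ θ := fun θ => by rw [hρ]; positivity
  have hρ1 : ∫ θ in (0 : ℝ)..(2 * Real.pi), ρ θ = 2 * Real.pi := by
    rw [hρe, intervalIntegral.integral_div, ← hI, hIZ]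
    field_simp
  have hlog : ∀ θ, Real.log (ρ θ) = u θ - Real.log Z := fun θ => by
    rw [hρ, Real.log_div (Real.exp_pos _).ne' hZ0.ne', Real.log_exp]
  obtain ⟨A, hA⟩ : ∃ A, A = ∫ θ in (0 : ℝ)..(2 * Real.pi), ρ θ * Real.log (ρ θ) := ⟨_, rfl⟩
  have hAe : A = ((starRingEnd ℂ) t * JJ' H ρ r l).re - 2 * Real.pi * Real.log Z := by
    have hcρ : Continuous fun θ => (ρ θ : ℂ) := Complex.continuous_ofReal.comp hρc
    have h2 : ((starRingEnd ℂ) t * JJ' H ρ r l).re =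
        ∫ θ in (0 : ℝ)..(2 * Real.pi), ρ θ * u θ := by
      unfold JJ'
      rw [← intervalIntegral.integral_const_mul]
      have h3 : (∫ θ in (0 : ℝ)..(2 * Real.pi), Complex.reCLM
          ((starRingEnd ℂ) t * ((ρ θ : ℂ) * H l (pt r θ)))) =
          Complex.reCLM (∫ θ in (0 : ℝ)..(2 * Real.pi),
            (starRingEnd ℂ) t * ((ρ θ : ℂ) * H l (pt r θ))) :=
        ContinuousLinearMap.intervalIntegral_comp_comm _
          ((continuous_const.mul (hcρ.mul hcH)).intervalIntegrable 0 (2 * Real.pi))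
      simp only [Complex.reCLM_apply] at h3
      rw [← h3]
      refine intervalIntegral.integral_congr fun θ _ => ?_
      have : (starRingEnd ℂ) t * ((ρ θ : ℂ) * H l (pt r θ)) =
          (ρ θ : ℂ) * ((starRingEnd ℂ) t * H l (pt r θ)) := by ring
      simp only [this, Complex.re_ofReal_mul, hu]
    rw [h2, hA]
    have h4 : ∀ θ, ρ θ * Real.log (ρ θ) = ρ θ * u θ - ρ θ * Real.log Z := fun θ => by
      rw [hlog]; ring
    simp only [h4]
    have i1 : IntervalIntegrable (fun θ => ρ θ * u θ) volume 0 (2 * Real.pi) :=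
      (hρc.mul huc).intervalIntegrable _ _
    have i2 : IntervalIntegrable (fun θ => ρ θ * Real.log Z) volume 0 (2 * Real.pi) :=
      (hρc.mul continuous_const).intervalIntegrable _ _
    rw [intervalIntegral.integral_sub i1 i2, intervalIntegral.integral_mul_const, hρ1]
  have hA0 : 0 ≤ A := by
    have h1 := gibbs hρc hρ0 hρ1 (u := fun _ => 0) continuous_const one_pos (by simp)
    simp only [mul_zero, intervalIntegral.integral_zero, Real.log_one, add_zero] at h1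
    rw [hA]
    exact h1
  -- the parameter of the inequality of the arithmetic and the geometric mean
  obtain ⟨κ, hκ⟩ : ∃ κ, κ = 2 * r / (‖t‖ * c) := ⟨_, rfl⟩
  have hκ0 : 0 < κ := by rw [hκ]; positivity
  obtain ⟨X, hX⟩ : ∃ X, X = 12 * Real.pi + 1 / r * (κ / 2 * A + Real.pi / κ * L) := ⟨_, rfl⟩
  have hX0 : 0 < X := by rw [hX]; positivity
  have hdiff : DifferentiableOn ℂ (JJ' H ρ r) (ball 0 1) := fun x hx =>
    (J_deriv S hρc hr hr1 hx).differentiableAt.differentiableWithinAt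
  have hJ0 : JJ' H ρ r 0 = 0 := by
    unfold JJ'
    have : ∀ θ, H 0 (pt r θ) = 0 := fun θ => S.zero _ (pt_mem hr.le hr1 θ)
    simp [this]
  have hJM : ∀ z ∈ ball (0 : ℂ) 1, ‖JJ' H ρ r z‖ ≤ 4 * X := by
    intro z hz
    refine (J_bound S hρc hρ0 hρ1 hr hr1 hκ0 hz).trans ?_
    rw [← hA, ← hL, hX]
    apply mul_le_mul_of_nonneg_left _ (by norm_num)
    have h1 : 1 ≤ 1 / r := by rw [le_div_iff₀ hr]; linarith
    have h2 : 0 ≤ κ / 2 * A + Real.pi / κ * L := by positivity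
    nlinarith
  have hJd : ‖deriv (JJ' H ρ r) 0‖ ≤ X := by
    rw [(J_deriv S hρc hr hr1 (mem_ball_self one_pos)).deriv]
    have h1 : ∀ θ : ℝ, deriv (fun l => H l (pt r θ)) 0 = BT μ (pt r θ)⁻¹ := fun θ =>
      S.der _ (pt_mem hr.le hr1 θ) (pt_ne hr θ)
    simp only [h1]
    have h2 := main_mu hρc hρp hρ0 hρ1 S.meas S.le_one hr0 hr1 hκ0
    rw [← hA, ← hL] at h2
    rw [hX]
    exact h2
  have hsp := sp hdiff hJ0 hX0 hJM hJd hlb
  have hJl : ‖JJ' H ρ r l‖ ≤ c * X := by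
    refine hsp.trans (mul_le_mul_of_nonneg_right ?_ hX0.le)
    rw [hc, div_le_div_iff₀ (by positivity) (by positivity)]
    obtain ⟨x, hx⟩ : ∃ x, x = ‖l‖ := ⟨_, rfl⟩
    rw [← hx] at hl ⊢
    have hx0 : 0 ≤ x := hx ▸ norm_nonneg l
    have : 4 * k * (1 + 4 * k) * (4 + x) - 4 * x * (1 + 4 * x) * (4 + k) =
        4 * (k - x) * (4 + 16 * (k + x) + 4 * k * x) := by ring
    have h2 : 0 ≤ 4 * (k - x) * (4 + 16 * (k + x) + 4 * k * x) := by
      have : 0 ≤ k - x := by linarith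
      positivity
    linarith
  have hre : ((starRingEnd ℂ) t * JJ' H ρ r l).re ≤ ‖t‖ * (c * X) := by
    refine (Complex.re_le_norm _).trans ?_
    rw [norm_mul, RCLike.norm_conj]
    exact mul_le_mul_of_nonneg_left hJl htn.le
  have hfin : 2 * Real.pi * Real.log Z ≤ ‖t‖ * (c * X) - A := by
    rw [hAe] at hA0 ⊢
    linarith
  have e1 : ‖t‖ * (c * X) - A = 2 * Real.pi * (6 * c * ‖t‖ + c ^ 2 / (4 * r ^ 2) * L * ‖t‖ ^ 2) := by
    rw [hX, hκ]
    field_simp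
    ring
  rw [e1] at hfin
  rw [hL] at hfin
  exact le_of_mul_le_mul_left hfin tp_pos

end

end Pool.Agent.TH166.QF
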