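import Pool.Agent.TH166.QF.QF7

set_option autoImplicit false

/-! # The final bound -/

namespace Pool.Agent.TH166.QF

open Complex Metric Set Filter Topology MeasureTheory
open Pool.Agent.W677.Mar Pool.Agent.TH790.SF

/-- the constant of the theorem -/
noncomputable def kap (k : ℝ) : ℝ := 4 * k * (1 + 4 * k) / (4 + k)

theorem lam_mono {x y : ℝ} (h : x ≤ y) (hy : y < 1) : lam x ≤ lam y := by
  unfold lam
  apply neg_le_neg
  exact Real.log_le_log (by linarith) (by linarith)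

theorem disc_final {k a : ℝ} (hk0 : 0 < k) (hk1 : k < 1) (ha : 0 < a) (hak : a * kap k ^ 2 < 1) :
    ∃ C : ℝ, ∀ (Y H : ℂ → ℂ → ℂ) (μ : ℂ → ℂ) (l : ℂ) (r : ℝ), Fam Y H μ → ‖l‖ ≤ k → 0 < r → r < 1 →
      ∫ θ in (0 : ℝ)..(2 * Real.pi), Real.exp (a * ‖H l (pt r θ)‖ ^ 2 / lam (r ^ 2)) ≤ C := by
  have hpi := Real.pi_pos
  obtain ⟨c, hc⟩ : ∃ c, c = kap k := ⟨_, rfl⟩
  have hc0 : 0 < c := by rw [hc]; unfold kap; positivity
  rw [← hc] at hak
  obtain ⟨s, hs⟩ : ∃ s, s = (1 + a * c ^ 2) / 2 := ⟨_, rfl⟩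
  have hac : 0 < a * c ^ 2 := by positivity
  have hs1 : s < 1 := by rw [hs]; linarith
  have hs2 : 1 / 2 < s := by rw [hs]; linarith
  have hs3 : a * c ^ 2 < s := by rw [hs]; linarith
  obtain ⟨L₁, hL₁⟩ : ∃ L₁, L₁ = lam s := ⟨_, rfl⟩
  have hL₁0 : 0 < L₁ := by rw [hL₁]; exact lam_pos (by linarith) hs1
  obtain ⟨δ, hδ⟩ : ∃ δ, δ = 1 / a - c ^ 2 / s := ⟨_, rfl⟩
  have hδ0 : 0 < δ := by
    rw [hδ, sub_pos, div_lt_div_iff₀ (by linarith) ha]
    linarith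
  refine ⟨max (2 * Real.pi * Real.exp (a * L₁))
    (2 * Real.pi * (1 * Real.exp ((6 * c) ^ 2 / (2 * (L₁ * δ / 4))) * (2 * (1 / (a * δ))))), ?_⟩
  intro Y H μ l r S hl hr0 hr1
  have hlb : l ∈ ball (0 : ℂ) 1 := mem_ball_zero_iff.2 (hl.trans_lt hk1)
  have hr2 : r ^ 2 < 1 := pow_lt_one₀ hr0.le hr1 two_ne_zero
  obtain ⟨L, hL⟩ : ∃ L, L = lam (r ^ 2) := ⟨_, rfl⟩
  have hL0 : 0 < L := by
    rw [hL]
    exact lam_pos (by positivity) hr2
  have hcH : Continuous fun θ : ℝ => H l (pt r θ) := cont_circ (S.sg l hlb).dH hr0.le hr1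
  have hM : ∀ θ : ℝ, ‖H l (pt r θ)‖ ≤ L := by
    intro θ
    have := goluzin (S.sg l hlb) (pt_mem hr0.le hr1 θ)
    rw [norm_pt r θ hr0.le] at this
    rw [hL]
    exact this
  rw [← hL]
  rcases le_or_gt (r ^ 2) s with hrs | hrs
  · refine le_trans ?_ (le_max_left _ _)
    have hLL : L ≤ L₁ := by
      rw [hL, hL₁]
      exact lam_mono hrs hs1
    have h1 : ∫ θ in (0 : ℝ)..(2 * Real.pi), Real.exp (a * ‖H l (pt r θ)‖ ^ 2 / L) ≤
        ∫ θ in (0 : ℝ)..(2 * Real.pi), Real.exp (a * L₁) := by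
      apply intervalIntegral.integral_mono_on tp_pos.le
      · exact (Real.continuous_exp.comp
          ((continuous_const.mul (hcH.norm.pow 2)).div_const L)).intervalIntegrable _ _
      · exact continuous_const.intervalIntegrable _ _
      · intro θ _
        apply Real.exp_le_exp.2
        rw [div_le_iff₀ hL0]
        have h2 := hM θ
        have h3 : ‖H l (pt r θ)‖ ^ 2 ≤ L * L := by
          rw [sq]
          exact mul_le_mul h2 h2 (norm_nonneg _) hL0.le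
        have h4 : L * L ≤ L₁ * L := mul_le_mul_of_nonneg_right hLL hL0.le
        nlinarith
    rw [intervalIntegral.integral_const, sub_zero, smul_eq_mul] at h1
    exact h1
  · refine le_trans ?_ (le_max_right _ _)
    have hLL : L₁ ≤ L := by
      rw [hL, hL₁]
      exact lam_mono hrs.le hr2
    have hrh : 1 / 2 ≤ r := by nlinarith
    obtain ⟨b, hb⟩ : ∃ b, b = L / (4 * a) := ⟨_, rfl⟩
    obtain ⟨β, hβ⟩ : ∃ β, β = c ^ 2 / (4 * r ^ 2) * L := ⟨_, rfl⟩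
    have hb0 : 0 < b := by rw [hb]; positivity
    have hbb : b - β = L / 4 * (1 / a - c ^ 2 / r ^ 2) := by
      rw [hb, hβ]
      field_simp
    have hδ2 : δ ≤ 1 / a - c ^ 2 / r ^ 2 := by
      rw [hδ]
      have : c ^ 2 / r ^ 2 ≤ c ^ 2 / s :=
        div_le_div_of_nonneg_left (by positivity) (by linarith) hrs.le
      linarith
    have hbβ : L₁ * δ / 4 ≤ b - β := by
      rw [hbb]
      calc L₁ * δ / 4 = L₁ / 4 * δ := by ring
        _ ≤ L / 4 * (1 / a - c ^ 2 / r ^ 2) :=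
          mul_le_mul (by linarith) hδ2 hδ0.le (by positivity)
    have hpos : 0 < L₁ * δ / 4 := by positivity
    have hβb : β < b := by linarith
    have hmom : ∀ t : ℂ, ∫ θ in (0 : ℝ)..(2 * Real.pi),
        Real.exp ((starRingEnd ℂ) t * H l (pt r θ)).re ≤
        2 * Real.pi * (1 * Real.exp (6 * c * ‖t‖) * Real.exp (β * ‖t‖ ^ 2)) := by
      intro t
      have := fam_mom S hk0 hk1 hl hrh hr1 t
      rw [hβ, hL, hc]
      exact this
    have h1 := gauss_lin hcH hM hb0 hβb (by positivity) hmom zero_le_one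
    have e2 : ∀ θ : ℝ, a * ‖H l (pt r θ)‖ ^ 2 / L = ‖H l (pt r θ)‖ ^ 2 / (4 * b) := by
      intro θ
      rw [hb]
      field_simp
    simp only [e2]
    refine h1.trans ?_
    apply mul_le_mul_of_nonneg_left _ tp_pos.le
    have h2 : Real.exp ((6 * c) ^ 2 / (2 * (b - β))) ≤ Real.exp ((6 * c) ^ 2 / (2 * (L₁ * δ / 4))) := by
      apply Real.exp_le_exp.2
      apply div_le_div_of_nonneg_left (by positivity) (by positivity)
      linarith
    have h3 : b / (b - β) ≤ 1 / (a * δ) := by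
      rw [div_le_div_iff₀ (by linarith) (by positivity), hbb, hb]
      have h4 : L / (4 * a) * (a * δ) = L / 4 * δ := by
        field_simp
      rw [h4, one_mul]
      exact mul_le_mul_of_nonneg_left hδ2 (by positivity)
    have h5 : 0 < b / (b - β) := div_pos hb0 (by linarith)
    apply mul_le_mul
    · exact mul_le_mul_of_nonneg_left h2 zero_le_one
    · linarith
    · positivity
    · positivity

/-- a Beltrami family on the exterior of the disc -/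
structure FamE (ψ h : ℂ → ℂ → ℂ) (μ : ℂ → ℂ) : Prop where
  d : ∀ l ∈ ball (0 : ℂ) 1, DifferentiableOn ℂ (ψ l) {z : ℂ | 1 < ‖z‖}
  i : ∀ l ∈ ball (0 : ℂ) 1, InjOn (ψ l) {z : ℂ | 1 < ‖z‖}
  b : ∀ l ∈ ball (0 : ℂ) 1, ∃ b : ℂ, Tendsto (fun z => ψ l z - z) (Bornology.cobounded ℂ) (𝓝 b)
  dh : ∀ l ∈ ball (0 : ℂ) 1, DifferentiableOn ℂ (h l) {z : ℂ | 1 < ‖z‖}
  e : ∀ l ∈ ball (0 : ℂ) 1, ∀ z : ℂ, 1 < ‖z‖ → Complex.exp (h l z) = deriv (ψ l) z
  t : ∀ l ∈ ball (0 : ℂ) 1, Tendsto (h l) (Bornology.cobounded ℂ) (𝓝 0)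
  hol : ∀ z : ℂ, 1 < ‖z‖ → DifferentiableOn ℂ (fun l => h l z) (ball 0 1)
  zero : ∀ z : ℂ, 1 < ‖z‖ → h 0 z = 0
  meas : Measurable μ
  le_one : ∀ ζ, ‖μ ζ‖ ≤ 1
  der : ∀ z : ℂ, 1 < ‖z‖ → deriv (fun l => h l z) 0 = BT μ z

theorem fam_of {ψ h : ℂ → ℂ → ℂ} {μ : ℂ → ℂ} (S : FamE ψ h μ) :
    Fam (fun l => hat (fun z => ψ l z / z) 1) (fun l => hat (h l) 0) μ where
  sg := fun l hl => toSg (S.d l hl) (S.i l hl) (S.b l hl) (S.dh l hl) (S.e l hl) (S.t l hl)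
  hol := by
    intro w hw
    by_cases hw0 : w = 0
    · simp only [hw0, hat_zero]
      exact differentiableOn_const 0
    · simp only [hat_ne _ _ hw0]
      exact S.hol _ (inv_ext hw hw0)
  zero := by
    intro w hw
    by_cases hw0 : w = 0
    · rw [hw0, hat_zero]
    · rw [hat_ne _ _ hw0]
      exact S.zero _ (inv_ext hw hw0)
  meas := S.meas
  le_one := S.le_one
  der := by
    intro w hw hw0
    simp only [hat_ne _ _ hw0]
    exact S.der _ (inv_ext hw hw0)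

/-- the exterior version -/
theorem ext_final {k a : ℝ} (hk0 : 0 < k) (hk1 : k < 1) (ha : 0 < a) (hak : a * kap k ^ 2 < 1) :
    ∃ C : ℝ, ∀ (ψ h : ℂ → ℂ → ℂ) (μ : ℂ → ℂ) (l : ℂ) (R : ℝ), FamE ψ h μ → ‖l‖ ≤ k → 1 < R →
      (1 / (2 * Real.pi)) * ∫ θ in (0 : ℝ)..(2 * Real.pi),
        Real.exp (a * ‖h l ((R : ℂ) * Complex.exp ((θ : ℂ) * Complex.I))‖ ^ 2
          / Real.log (R ^ 2 / (R ^ 2 - 1))) ≤ C := by
  have hpi := Real.pi_pos
  obtain ⟨C, hC⟩ := disc_final hk0 hk1 ha hak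
  refine ⟨(1 / (2 * Real.pi)) * C, ?_⟩
  intro ψ h μ l R S hl hR
  have hR0 : 0 < R := by linarith
  have hR2 : 0 < R ^ 2 - 1 := by nlinarith
  obtain ⟨q, hq⟩ : ∃ q, q = R ^ 2 / (R ^ 2 - 1) := ⟨_, rfl⟩
  rw [← hq]
  obtain ⟨r, hr⟩ : ∃ r, r = R⁻¹ := ⟨_, rfl⟩
  have hr0 : 0 < r := by rw [hr]; positivity
  have hr1 : r < 1 := by rw [hr]; exact inv_lt_one_of_one_lt₀ hR
  have hlam : lam (r ^ 2) = Real.log q := by
    have : 1 - r ^ 2 = q⁻¹ := by
      rw [hq, hr]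
      field_simp
    rw [lam, this, Real.log_inv, neg_neg]
  have h1 := hC _ _ μ l r (fam_of S) hl hr0 hr1
  rw [hlam] at h1
  refine mul_le_mul_of_nonneg_left (le_trans (le_of_eq ?_) h1) (by positivity)
  set F : ℝ → ℝ := fun θ => Real.exp (a * ‖hat (h l) 0 (pt r θ)‖ ^ 2 / Real.log q) with hF
  have hper : Function.Periodic F (2 * Real.pi) := by
    intro θ
    simp only [hF, pt_periodic r θ]
  have h2 : ∀ θ : ℝ, Real.exp (a * ‖h l ((R : ℂ) * Complex.exp ((θ : ℂ) * Complex.I))‖ ^ 2 /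
      Real.log q) = F (-θ) := by
    intro θ
    simp only [hF]
    have hne : pt r (-θ) ≠ 0 := pt_ne hr0 _
    rw [hat_ne _ _ hne]
    have e1 : (pt r (-θ))⁻¹ = (R : ℂ) * Complex.exp ((θ : ℂ) * Complex.I) := by
      simp only [pt, circleMap, zero_add, hr]
      rw [mul_inv, ← Complex.exp_neg]
      push_cast
      rw [inv_inv]
      congr 2
      ring
    rw [e1]
  simp only [h2]
  rw [intervalIntegral.integral_comp_neg F]
  have h3 := hper.intervalIntegral_add_eq (-(2 * Real.pi)) 0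
  rw [neg_add_cancel, zero_add] at h3
  rw [neg_zero]
  exact h3

end Pool.Agent.TH166.QF
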